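import Pool.Agent.K4H4.SB.Core

set_option autoImplicit false

/-! The mean of the fourth root of the sum of the fourth powers, for one tuple of levels. -/

namespace Pool.Agent.K4H4.UL
open Finset
open Pool.Agent.K4H4.CL
open Pool.Agent.K4H4.SB
open Pool.Agent.TH894.NE (box mem_box card_box Per mean two_mod mean_mono mean_const mean_add mean_mul)

variable {d : ℕ}

theorem level (d r m : ℕ) (hr : 1 ≤ r) (hm : 1 ≤ m) : ∃ C₁ C₂ τ : ℝ, 0 ≤ C₁ ∧ 0 ≤ C₂ ∧ 0 < τ ∧ τ < 1 ∧
    ∀ (φ : Fin m → ℕ → (Fin d → ℤ) → ℕ) (L : Fin m → ℕ) (Adm : Fin m → ℕ → Prop) (K : ℕ) (σ : ℝ) (N : Fin d → ℕ) (u : Fin d → ℤ),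
    (∀ i k (t t' : Fin d → ℤ), (∀ l, (PI (Ico k (k + r)) : ℤ) ∣ t l - t' l) → φ i k t = φ i k t') → 1 ≤ K →
    2 ^ d * ∏ i, (2 : ℝ) ^ L i ≤ σ → (K : ℝ) ≤ σ ^ 2 → (∀ i, (K : ℝ) ^ (2 * 2) * (pr (K + r) : ℝ) ^ (2 * 2 * r) * σ ≤ N i) →
    (∀ i j c, j < L i → (∃ T, Adm i T ∧ T / 2 ^ j = c + 1) →
      mu (fun k t => if φ i k t / 2 ^ j = c then (1 : ℝ) else 0) r K ≤ 16 * K * (1 / 2) ^ (L i - j)) →
    ∀ j ∈ Fintype.piFinset (fun i => range (L i)),
      ∑ n ∈ par N, Real.sqrt (Real.sqrt (Qj φ L Adm r K j (fun i => u i + n i))) ≤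
        (C₁ * Real.sqrt K * ∏ i, τ ^ (L i - j i) + (C₂ * Real.sqrt (Real.sqrt K) + 1)) * ∏ i, (N i : ℝ) := by
  classical
  obtain ⟨C, hC, havg⟩ := avg4 d r hr
  obtain ⟨τ, hτ⟩ : ∃ τ : ℝ, τ = 1 - 1 / (8 * m) := ⟨_, rfl⟩
  have hm1 : (1 : ℝ) ≤ m := by exact_mod_cast hm
  have h8 : (0 : ℝ) < 8 * m := by positivity
  have h18 : (1 : ℝ) / (8 * m) ≤ 1 / 8 := by
    apply one_div_le_one_div_of_le (by norm_num)
    linarith
  have h18p : (0 : ℝ) < 1 / (8 * m) := by positivity
  have hτ0 : 0 < τ := by rw [hτ]; linarith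
  have hτ1 : τ < 1 := by rw [hτ]; linarith
  have hτm : 1 / 2 ≤ τ ^ (4 * m) := by
    have h1 := one_add_mul_le_pow (a := -(1 / (8 * (m : ℝ)))) (by linarith) (4 * m)
    have e : 1 + -(1 / (8 * (m : ℝ))) = τ := by rw [hτ]; ring
    rw [e] at h1
    refine le_trans (le_of_eq ?_) h1
    push_cast
    field_simp
    norm_num
  refine ⟨Real.sqrt (Real.sqrt (16 * C)), Real.sqrt (Real.sqrt C), τ, Real.sqrt_nonneg _, Real.sqrt_nonneg _, hτ0, hτ1,
    fun φ L Adm K σ N u hper hK hσ hKσ hN hmass => ?_⟩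
  have hK1 : (1 : ℝ) ≤ K := by exact_mod_cast hK
  have hPL : (1 : ℝ) ≤ ∏ i, (2 : ℝ) ^ L i := by
    have : ∀ i ∈ (univ : Finset (Fin m)), (1 : ℝ) ≤ 2 ^ L i := fun i _ => one_le_pow₀ (by norm_num)
    calc (1 : ℝ) = ∏ _i : Fin m, (1 : ℝ) := by rw [prod_const_one]
      _ ≤ _ := prod_le_prod (fun _ _ => zero_le_one) this
  have h2d : (1 : ℝ) ≤ 2 ^ d := one_le_pow₀ (by norm_num)
  have hσ1 : 1 ≤ σ := by nlinarith
  have hσ0 : 0 < σ := by linarith
  obtain ⟨P, hP⟩ : ∃ P : ℝ, P = ∏ i, (N i : ℝ) := ⟨_, rfl⟩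
  have hcard : ((par N).card : ℝ) = P := by
    rw [card_par, hP]
    push_cast
    rfl
  have hP0 : 0 ≤ P := by rw [← hcard]; exact Nat.cast_nonneg _
  rw [← hP]
  -- one tuple of levels
  have hlev : ∀ j ∈ Fintype.piFinset (fun i => range (L i)),
      ∑ n ∈ par N, Real.sqrt (Real.sqrt (Qj φ L Adm r K j (fun i => u i + n i))) ≤
      (Real.sqrt (Real.sqrt (16 * C)) * Real.sqrt K * ∏ i, τ ^ (L i - j i) + (Real.sqrt (Real.sqrt C) * Real.sqrt (Real.sqrt K) + 1)) * P := by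
    intro j hj
    rw [Fintype.mem_piFinset] at hj
    have hjL : ∀ i, j i < L i := fun i => mem_range.1 (hj i)
    obtain ⟨M, hM⟩ : ∃ M : ℝ, M = 16 * K * ∏ i, τ ^ (4 * (L i - j i)) := ⟨_, rfl⟩
    have hM0 : 0 ≤ M := by rw [hM]; positivity
    have hmuM : ∀ c ∈ cells L Adm j, mu (cel φ j c) r K ≤ M := by
      intro c hc
      rw [hM]
      apply geo hm _ _ _ (mu_nonneg (cel_nonneg φ j c) r K) (by positivity) (fun i => by positivity)
      intro i
      unfold cells at hc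
      rw [mem_filter] at hc
      have h1 := hmass i (j i) (c i) (hjL i) (hc.2 i)
      have h2 : mu (cel φ j c) r K ≤ mu (fun k t => if φ i k t / 2 ^ (j i) = c i then (1 : ℝ) else 0) r K :=
        mu_mono (fun k t _ => cel_le_one φ j c k t i) r
      refine (h2.trans h1).trans ?_
      apply mul_le_mul_of_nonneg_left _ (by positivity)
      have e : (τ ^ (4 * (L i - j i))) ^ m = (τ ^ (4 * m)) ^ (L i - j i) := by
        rw [← pow_mul, ← pow_mul]
        congr 1
        ring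
      rw [e]
      exact pow_le_pow_left₀ (by norm_num) hτm _
    have hQ : ∑ n ∈ par N, Qj φ L Adm r K j (fun i => u i + n i) ≤ (C * (M * K) + C * K + 1) * ((par N).card : ℝ) := by
      unfold Qj
      rw [sum_comm]
      have h1 : ∀ c ∈ cells L Adm j, ∑ n ∈ par N, dev (cel φ j c) r K (fun i => u i + n i) ^ 4 ≤
          (C * (M * mu (cel φ j c) r K) + C * mu (cel φ j c) r K + 2 ^ d / σ) * P := by
        intro c hc
        have hgper : ∀ k, PerZ (PI (Ico k (k + r))) (cel φ j c k) := by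
          intro k t t' ht
          unfold cel
          exact prod_congr rfl fun i _ => by rw [hper i k t t' ht]
        have h2 := havg (cel φ j c) hgper (fun k t => ⟨cel_nonneg φ j c k t, cel_le φ j c k t⟩) K σ N u hK hσ1 hKσ hN
        have h3 : ∑ n ∈ par N, dev (cel φ j c) r K (fun i => u i + n i) ^ 4 =
            ∑ n ∈ par N, (tot (cel φ j c) K (fun i => u i + n i) - mu (cel φ j c) r K) ^ 4 := rfl
        rw [h3]
        refine h2.trans ?_
        rw [← hP]
        apply mul_le_mul_of_nonneg_right _ hP0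
        have h4 := mu_nonneg (cel_nonneg φ j c) r K
        have h5 : mu (cel φ j c) r K ^ 2 ≤ M * mu (cel φ j c) r K := by
          rw [sq]
          exact mul_le_mul_of_nonneg_right (hmuM c hc) h4
        have h6 := mul_le_mul_of_nonneg_left h5 hC
        linarith
      refine (sum_le_sum h1).trans ?_
      rw [← sum_mul, hcard]
      apply mul_le_mul_of_nonneg_right _ hP0
      rw [sum_add_distrib, sum_add_distrib, ← mul_sum, ← mul_sum, ← mul_sum, sum_const, nsmul_eq_mul]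
      have h7 := sum_mu_cel φ L j Adm r K
      have h8 : ((cells L Adm j).card : ℝ) * (2 ^ d / σ) ≤ 1 := by
        rw [mul_div_assoc', div_le_one hσ0]
        refine le_trans ?_ hσ
        rw [mul_comm]
        apply mul_le_mul_of_nonneg_left _ (by positivity)
        have h9 : (cells L Adm j).card ≤ (Fintype.piFinset (fun i => range (2 ^ L i))).card := card_le_card (filter_subset _ _)
        rw [Fintype.card_piFinset] at h9
        have h10 : ((cells L Adm j).card : ℝ) ≤ ((∏ i, (range (2 ^ L i)).card : ℕ) : ℝ) := by exact_mod_cast h9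
        refine h10.trans (le_of_eq ?_)
        push_cast
        exact prod_congr rfl fun i _ => by rw [card_range]; push_cast; rfl
      have h11 := mul_le_mul_of_nonneg_left (mul_le_mul_of_nonneg_left h7 hM0) hC
      have h12 := mul_le_mul_of_nonneg_left h7 hC
      linarith
    have h3 := sum_s4 (par N) (fun n => Qj φ L Adm r K j (fun i => u i + n i)) _ (fun n _ => Qj_nonneg _ _ _ _ _ _ _) hQ
    refine h3.trans ?_
    rw [hcard]
    apply mul_le_mul_of_nonneg_right _ hP0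
    have h4 := s4_add (C * (M * K)) (C * K + 1) (by positivity) (by positivity)
    have h5 := s4_add (C * K) 1 (by positivity) (by norm_num)
    rw [Real.sqrt_one, Real.sqrt_one] at h5
    have h6 : Real.sqrt (Real.sqrt (C * K)) = Real.sqrt (Real.sqrt C) * Real.sqrt (Real.sqrt K) := by
      rw [Real.sqrt_mul hC, Real.sqrt_mul (Real.sqrt_nonneg _)]
    have h7 : Real.sqrt (Real.sqrt (C * (M * K))) = Real.sqrt (Real.sqrt (16 * C)) * Real.sqrt K * ∏ i, τ ^ (L i - j i) := by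
      obtain ⟨x, hx⟩ : ∃ x, x = Real.sqrt (Real.sqrt (16 * C)) * Real.sqrt K * ∏ i, τ ^ (L i - j i) := ⟨_, rfl⟩
      have hx0 : 0 ≤ x := by rw [hx]; positivity
      rw [← hx]
      have e : C * (M * K) = x ^ 4 := by
        rw [hx, mul_pow, mul_pow]
        have e1 : Real.sqrt (Real.sqrt (16 * C)) ^ 4 = 16 * C := by
          have : Real.sqrt (Real.sqrt (16 * C)) ^ 4 = (Real.sqrt (Real.sqrt (16 * C)) ^ 2) ^ 2 := by ring
          rw [this, Real.sq_sqrt (Real.sqrt_nonneg _), Real.sq_sqrt (by positivity)]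
        have e2 : Real.sqrt (K : ℝ) ^ 4 = (K : ℝ) ^ 2 := by
          have : Real.sqrt (K : ℝ) ^ 4 = (Real.sqrt (K : ℝ) ^ 2) ^ 2 := by ring
          rw [this, Real.sq_sqrt (by positivity)]
        have e3 : (∏ i, τ ^ (L i - j i)) ^ 4 = ∏ i, τ ^ (4 * (L i - j i)) := by
          rw [← prod_pow]
          exact prod_congr rfl fun i _ => by rw [← pow_mul, mul_comm]
        rw [e1, e2, e3, hM]
        ring
      rw [e, s4, abs_of_nonneg hx0]
    rw [h7] at h4
    rw [h6] at h5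
    have e : C * (M * K) + C * K + 1 = C * (M * K) + (C * K + 1) := by ring
    rw [e]
    linarith
  exact hlev

end Pool.Agent.K4H4.UL
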