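import Pool.Agent.K4H4.SB.Orth
import Pool.Agent.K4H4.GL.Char

set_option autoImplicit false

/-! The averages of the exponentials of the scaled deviation over two boxes of parameters. -/

namespace Pool.Agent.K4H4.UL
open Finset
open Pool.Agent.K4H4.CL
open Pool.Agent.K4H4.SB
open Pool.Agent.TH894.NE (box mem_box card_box Per mean two_mod mean_mono mean_const mean_add mean_mul)

variable {d : ℕ}

/-- the scaled deviation -/
noncomputable def sd (g : ℕ → (Fin d → ℤ) → ℝ) (r K : ℕ) (t : Fin d → ℤ) : ℝ := dev g r K t / Real.sqrt K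

lemma perZ_sd {r K : ℕ} {g : ℕ → (Fin d → ℤ) → ℝ} (hg : ∀ k, PerZ (PI (Ico k (k + r))) (g k)) (k : ℕ) :
    PerZ (PI (range (K + r))) (fun t => sd g r K t ^ k) := by
  intro t t' ht
  have h := perZ_tot hg t t' ht
  show sd g r K t ^ k = sd g r K t' ^ k
  unfold sd dev
  rw [h]

lemma mom (d r m : ℕ) (hr : 1 ≤ r) : ∃ C : ℝ, 0 ≤ C ∧ ∀ g : ℕ → (Fin d → ℤ) → ℝ, (∀ k, PerZ (PI (Ico k (k + r))) (g k)) →
    (∀ k t, |g k t| ≤ 1) → ∀ K : ℕ, 1 ≤ K →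
    meanZ (PI (range (K + r))) (fun t => sd g r K t ^ (2 * m)) ≤
      4 ^ m * ((Nat.doubleFactorial (2 * m - 1) : ℝ) * (1 + 2 * r) ^ (2 * m)) + C / Real.sqrt K ∧
    ∀ (N : Fin d → ℕ) (u : Fin d → ℤ), (∀ i, (K : ℝ) ^ (2 * m) * (pr (K + r) : ℝ) ^ (2 * m * r) * Real.sqrt K ≤ N i) →
      ∀ k, k ≤ 2 * m → |∑ n ∈ par N, sd g r K (fun i => u i + n i) ^ k -
        (∏ i, (N i : ℝ)) * meanZ (PI (range (K + r))) (fun t => sd g r K t ^ k)| ≤ (2 ^ k * 2 ^ d / Real.sqrt K) * ∏ i, (N i : ℝ) := by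
  obtain ⟨Cm, hCm, hmom⟩ := Sys.moments (Ω := Fin d → ℕ) r (2 * m)
  refine ⟨4 ^ m * Cm, by positivity, fun g hg hb K hK => ?_⟩
  have hK1 : (1 : ℝ) ≤ K := by exact_mod_cast hK
  have hσ : 1 ≤ Real.sqrt K := Real.one_le_sqrt.2 hK1
  have hσ0 : 0 < Real.sqrt K := by linarith
  have hσ2 : Real.sqrt (K : ℝ) ^ 2 = K := Real.sq_sqrt (by linarith)
  have hms : ∀ (k : ℕ) (u : Fin d → ℤ), |mean d (PI (Ico k (k + r))) (sh u (g k))| ≤ 1 := by
    intro k u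
    have h0 : ∀ n, |sh u (g k) n| ≤ 1 := fun n => hb k _
    rw [abs_le]
    constructor
    · have h1 := mean_mono (d := d) (q := PI (Ico k (k + r))) (F := fun _ => (-1 : ℝ)) (G := sh u (g k)) (fun n => (abs_le.1 (h0 n)).1)
      rwa [mean_const d _ (PI_pos _) (-1)] at h1
    · have h1 := mean_mono (d := d) (q := PI (Ico k (k + r))) (F := sh u (g k)) (G := fun _ => (1 : ℝ)) (fun n => (abs_le.1 (h0 n)).2)
      rwa [mean_const d _ (PI_pos _) 1] at h1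
  have hcb : ∀ (u : Fin d → ℤ) k n, |cen 2 g u r k n| ≤ 1 := by
    intro u k n
    unfold cen
    rw [abs_div, abs_of_pos (by norm_num : (0 : ℝ) < 2), div_le_one (by norm_num)]
    have h1 := hms k u
    have h2 : |sh u (g k) n| ≤ 1 := hb k _
    calc _ ≤ |sh u (g k) n| + |mean d (PI (Ico k (k + r))) (sh u (g k))| := abs_sub _ _
      _ ≤ 2 := by linarith
  have hw : ∀ u : Fin d → ℤ, ∑ k ∈ range K, (sys d (K + r)).E (fun n => |cen 2 g u r k n|) ≤ K := by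
    intro u
    calc ∑ k ∈ range K, (sys d (K + r)).E (fun n => |cen 2 g u r k n|) ≤ ∑ k ∈ range K, (1 : ℝ) := by
          apply sum_le_sum
          intro k _
          have := (sys d (K + r)).mono (fun n => |cen 2 g u r k n|) (fun _ => 1) (hcb u k)
          rwa [(sys d (K + r)).one] at this
      _ = K := by simp
  have hyp : ∀ u, (sys d (K + r)).Hyp (cen 2 g u r) r K (Real.sqrt K) := fun u =>
    hyp_cen hr 2 _ hg u (hcb u) hσ (by rw [hσ2]; exact hw u)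
  have hS : ∀ (u : Fin d → ℤ) n, sd g r K (fun i => u i + n i) = (2 / Real.sqrt K) * Sys.S (cen 2 g u r) K n := by
    intro u n
    rw [S_cen 2 hg u n]
    unfold sd dev
    field_simp
  have hmean : ∀ (u : Fin d → ℤ) k, meanZ (PI (range (K + r))) (fun t => sd g r K t ^ k) =
      (2 / Real.sqrt K) ^ k * (sys d (K + r)).E (fun n => Sys.S (cen 2 g u r) K n ^ k) := by
    intro u k
    rw [← mean_sh (PI_pos _) (perZ_sd hg k) u, ← (sys d (K + r)).mul]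
    show mean d (PI (range (K + r))) _ = mean d (PI (range (K + r))) _
    congr 1
    funext n
    show sd g r K (fun i => u i + n i) ^ k = _
    rw [hS u n, mul_pow]
  constructor
  · rw [hmean 0 (2 * m)]
    have h1 := hmom _ _ K _ (hyp 0) K le_rfl
    have hV := V_le' r (hyp 0) K le_rfl
    have hV2 : (sys d (K + r)).V (cen 2 g 0 r) K ≤ (1 + 2 * r) * Real.sqrt K ^ 2 := by
      rw [hσ2]
      refine hV.trans ?_
      apply mul_le_mul_of_nonneg_left (hw 0) (by positivity)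
    have hG := G_bound (2 * m) (1 + 2 * r) (Real.sqrt K) (by have : (0 : ℝ) ≤ r := Nat.cast_nonneg r; linarith) hσ _ (Sys.V_nonneg _ _ _) hV2
    have h2 : (sys d (K + r)).E (fun n => Sys.S (cen 2 g 0 r) K n ^ (2 * m)) ≤
        (Nat.doubleFactorial (2 * m - 1) : ℝ) * (1 + 2 * r) ^ (2 * m) * Real.sqrt K ^ (2 * m) + Cm * Real.sqrt K ^ (2 * m) / Real.sqrt K := by
      have h3 : |(sys d (K + r)).E (fun n => Sys.S (cen 2 g 0 r) K n ^ (2 * m)) - G (2 * m) ((sys d (K + r)).V (cen 2 g 0 r) K)| ≤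
          Cm * Real.sqrt K ^ (2 * m) / Real.sqrt K := by
        rw [le_div_iff₀ hσ0]
        exact h1
      have h4 := (abs_le.1 h3).2
      have h5 := (abs_le.1 hG).2
      linarith
    have h3 := mul_le_mul_of_nonneg_left h2 (show (0 : ℝ) ≤ (2 / Real.sqrt K) ^ (2 * m) by positivity)
    refine h3.trans (le_of_eq ?_)
    have e : (2 / Real.sqrt (K : ℝ)) ^ (2 * m) = 4 ^ m / Real.sqrt K ^ (2 * m) := by
      rw [div_pow, pow_mul (2 : ℝ)]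
      norm_num
    rw [e]
    field_simp
  · intro N u hN k hk
    have h1 := avg_pow r (cen 2 g u r) K (Real.sqrt K) (hyp u) hK m k hk N hN
    rw [hmean u k]
    have e : ∑ n ∈ par N, sd g r K (fun i => u i + n i) ^ k = (2 / Real.sqrt K) ^ k * ∑ n ∈ par N, Sys.S (cen 2 g u r) K n ^ k := by
      rw [mul_sum]
      exact sum_congr rfl fun n _ => by rw [hS u n, mul_pow]
    have e2 : ∑ n ∈ par N, sd g r K (fun i => u i + n i) ^ k -
        (∏ i, (N i : ℝ)) * ((2 / Real.sqrt K) ^ k * (sys d (K + r)).E (fun n => Sys.S (cen 2 g u r) K n ^ k)) =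
        (2 / Real.sqrt K) ^ k * (∑ n ∈ par N, Sys.S (cen 2 g u r) K n ^ k - (∏ i, (N i : ℝ)) * (sys d (K + r)).E (fun n => Sys.S (cen 2 g u r) K n ^ k)) := by
      rw [e]
      ring
    rw [e2, abs_mul, abs_of_nonneg (by positivity)]
    have h2 : (2 / Real.sqrt (K : ℝ)) ^ k ≤ 2 ^ k := by
      apply pow_le_pow_left₀ (by positivity)
      rw [div_le_iff₀ hσ0]
      linarith
    have hP : 0 ≤ ∏ i, (N i : ℝ) := by positivity
    calc (2 / Real.sqrt (K : ℝ)) ^ k * _ ≤ 2 ^ k * (2 ^ d / Real.sqrt K * ∏ i, (N i : ℝ)) :=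
          mul_le_mul h2 h1 (abs_nonneg _) (by positivity)
      _ = _ := by ring

/-- one box against the mean -/
lemma osc_one (d r m : ℕ) (hr : 1 ≤ r) (Ξ : ℝ) (hΞ : 0 ≤ Ξ) : ∃ C : ℝ, 0 ≤ C ∧ ∀ g : ℕ → (Fin d → ℤ) → ℝ,
    (∀ k, PerZ (PI (Ico k (k + r))) (g k)) → (∀ k t, |g k t| ≤ 1) → ∀ K : ℕ, 1 ≤ K → ∀ ξ : ℝ, |ξ| ≤ Ξ → ∃ c : ℂ,
    ∀ (N : Fin d → ℕ) (u : Fin d → ℤ), (∀ i, (K : ℝ) ^ (2 * m) * (pr (K + r) : ℝ) ^ (2 * m * r) * Real.sqrt K ≤ N i) → (∀ i, 1 ≤ N i) →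
      ‖(∑ n ∈ par N, Complex.exp ((ξ * sd g r K (fun i => u i + n i) : ℝ) * Complex.I)) / ((par N).card : ℂ) - c‖ ≤
        (2 * Ξ * (1 + 2 * r)) ^ (2 * m) / (2 ^ m * (m.factorial : ℝ)) + C / Real.sqrt K := by
  obtain ⟨Cm, hCm, hmom⟩ := mom d r m hr
  refine ⟨∑ k ∈ range (2 * m), Ξ ^ k / (k.factorial : ℝ) * (2 ^ k * 2 ^ d) + Ξ ^ (2 * m) / ((2 * m).factorial : ℝ) * (Cm + 2 ^ (2 * m) * 2 ^ d),
    by positivity, fun g hg hb K hK ξ hξ => ?_⟩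
  obtain ⟨h1, h2⟩ := hmom g hg hb K hK
  have hK1 : (1 : ℝ) ≤ K := by exact_mod_cast hK
  have hσ : 1 ≤ Real.sqrt K := Real.one_le_sqrt.2 hK1
  have hσ0 : 0 < Real.sqrt K := by linarith
  refine ⟨∑ k ∈ range (2 * m), ((ξ : ℂ) * Complex.I) ^ k / (k.factorial : ℂ) * ((meanZ (PI (range (K + r))) (fun t => sd g r K t ^ k) : ℝ) : ℂ),
    fun N u hN hN1 => ?_⟩
  have h3 := h2 N u hN
  obtain ⟨P, hP⟩ : ∃ P : ℝ, P = ∏ i, (N i : ℝ) := ⟨_, rfl⟩
  have hP0 : 0 < P := by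
    rw [hP]
    exact prod_pos fun i _ => by exact_mod_cast hN1 i
  have hcard : ((par N).card : ℝ) = P := by
    rw [card_par, hP]
    push_cast
    rfl
  have hcardC : ((par N).card : ℂ) = (P : ℂ) := by exact_mod_cast hcard
  rw [← hP] at h3
  obtain ⟨x, hx⟩ : ∃ x : (Fin d → ℕ) → ℝ, x = fun n => sd g r K (fun i => u i + n i) := ⟨_, rfl⟩
  have hx' : ∀ n, sd g r K (fun i => u i + n i) = x n := fun n => by rw [hx]
  simp only [hx'] at h3 ⊢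
  obtain ⟨μ, hμ⟩ : ∃ μ : ℕ → ℝ, μ = fun k => meanZ (PI (range (K + r))) (fun t => sd g r K t ^ k) := ⟨_, rfl⟩
  have hμ' : ∀ k, meanZ (PI (range (K + r))) (fun t => sd g r K t ^ k) = μ k := fun k => by rw [hμ]
  simp only [hμ'] at h1 h3 ⊢
  rw [hcardC]
  have e : (∑ n ∈ par N, Complex.exp ((ξ * x n : ℝ) * Complex.I)) / (P : ℂ) -
      ∑ k ∈ range (2 * m), ((ξ : ℂ) * Complex.I) ^ k / (k.factorial : ℂ) * ((μ k : ℝ) : ℂ) =
      (∑ n ∈ par N, (Complex.exp ((ξ * x n : ℝ) * Complex.I) - ∑ k ∈ range (2 * m), ((ξ * x n : ℝ) * Complex.I) ^ k / (k.factorial : ℂ))) / (P : ℂ) +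
      ∑ k ∈ range (2 * m), ((ξ : ℂ) * Complex.I) ^ k / (k.factorial : ℂ) * (((∑ n ∈ par N, x n ^ k - P * μ k) / P : ℝ) : ℂ) := by
    rw [sum_sub_distrib, sub_div, sum_comm]
    have e1 : (∑ k ∈ range (2 * m), ∑ n ∈ par N, ((ξ * x n : ℝ) * Complex.I) ^ k / (k.factorial : ℂ)) / (P : ℂ) =
        ∑ k ∈ range (2 * m), ((ξ : ℂ) * Complex.I) ^ k / (k.factorial : ℂ) * (((∑ n ∈ par N, x n ^ k) / P : ℝ) : ℂ) := by
      rw [sum_div]
      refine sum_congr rfl fun k _ => ?_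
      push_cast
      rw [sum_div, sum_div, mul_sum]
      refine sum_congr rfl fun n _ => ?_
      have hPc : (P : ℂ) ≠ 0 := by exact_mod_cast hP0.ne'
      field_simp
      ring
    rw [e1]
    have e2 : ∀ k ∈ range (2 * m), ((ξ : ℂ) * Complex.I) ^ k / (k.factorial : ℂ) * (((∑ n ∈ par N, x n ^ k - P * μ k) / P : ℝ) : ℂ) =
        ((ξ : ℂ) * Complex.I) ^ k / (k.factorial : ℂ) * (((∑ n ∈ par N, x n ^ k) / P : ℝ) : ℂ) -
        ((ξ : ℂ) * Complex.I) ^ k / (k.factorial : ℂ) * ((μ k : ℝ) : ℂ) := by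
      intro k _
      have e3 : (∑ n ∈ par N, x n ^ k - P * μ k) / P = (∑ n ∈ par N, x n ^ k) / P - μ k := by
        field_simp
      rw [e3]
      push_cast
      ring
    rw [sum_congr rfl e2, sum_sub_distrib]
    ring
  rw [e]
  refine (norm_add_le _ _).trans ?_
  have hΞk : ∀ k : ℕ, |ξ| ^ k ≤ Ξ ^ k := fun k => pow_le_pow_left₀ (abs_nonneg _) hξ k
  have hb1 : ‖(∑ n ∈ par N, (Complex.exp ((ξ * x n : ℝ) * Complex.I) - ∑ k ∈ range (2 * m), ((ξ * x n : ℝ) * Complex.I) ^ k / (k.factorial : ℂ))) / (P : ℂ)‖ ≤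
      Ξ ^ (2 * m) / ((2 * m).factorial : ℝ) * (μ (2 * m) + 2 ^ (2 * m) * 2 ^ d / Real.sqrt K) := by
    rw [norm_div, Complex.norm_real, Real.norm_eq_abs, abs_of_pos hP0, div_le_iff₀ hP0]
    refine (norm_sum_le _ _).trans ?_
    have h4 : ∀ n ∈ par N, ‖Complex.exp ((ξ * x n : ℝ) * Complex.I) - ∑ k ∈ range (2 * m), ((ξ * x n : ℝ) * Complex.I) ^ k / (k.factorial : ℂ)‖ ≤
        Ξ ^ (2 * m) / ((2 * m).factorial : ℝ) * x n ^ (2 * m) := by
      intro n _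
      refine (Pool.Agent.K4H4.GL.exp_rem (2 * m) (ξ * x n)).trans ?_
      rw [abs_mul, mul_pow, div_mul_eq_mul_div]
      apply div_le_div_of_nonneg_right _ (by positivity)
      have e5 : |x n| ^ (2 * m) = x n ^ (2 * m) := by rw [pow_mul, pow_mul, sq_abs]
      rw [e5]
      apply mul_le_mul_of_nonneg_right (hΞk _)
      rw [pow_mul]
      positivity
    refine (sum_le_sum h4).trans ?_
    rw [← mul_sum]
    have h5 := (abs_le.1 (h3 (2 * m) le_rfl)).2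
    have h6 : ∑ n ∈ par N, x n ^ (2 * m) ≤ (μ (2 * m) + 2 ^ (2 * m) * 2 ^ d / Real.sqrt K) * P := by linarith
    calc Ξ ^ (2 * m) / ((2 * m).factorial : ℝ) * ∑ n ∈ par N, x n ^ (2 * m) ≤
        Ξ ^ (2 * m) / ((2 * m).factorial : ℝ) * ((μ (2 * m) + 2 ^ (2 * m) * 2 ^ d / Real.sqrt K) * P) :=
          mul_le_mul_of_nonneg_left h6 (by positivity)
      _ = _ := by ring
  have hb2 : ‖∑ k ∈ range (2 * m), ((ξ : ℂ) * Complex.I) ^ k / (k.factorial : ℂ) * (((∑ n ∈ par N, x n ^ k - P * μ k) / P : ℝ) : ℂ)‖ ≤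
      ∑ k ∈ range (2 * m), Ξ ^ k / (k.factorial : ℝ) * (2 ^ k * 2 ^ d / Real.sqrt K) := by
    refine (norm_sum_le _ _).trans (sum_le_sum fun k hk => ?_)
    rw [mem_range] at hk
    rw [norm_mul, norm_div, norm_pow, norm_mul, Complex.norm_I, mul_one, Complex.norm_real, Complex.norm_real, Real.norm_eq_abs, Real.norm_eq_abs,
      Complex.norm_natCast]
    apply mul_le_mul
    · exact div_le_div_of_nonneg_right (hΞk k) (by positivity)
    · rw [abs_div, abs_of_pos hP0, div_le_iff₀ hP0]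
      exact h3 k hk.le
    · exact abs_nonneg _
    · positivity
  refine (add_le_add hb1 hb2).trans ?_
  have hfac : Ξ ^ (2 * m) / ((2 * m).factorial : ℝ) * (4 ^ m * ((Nat.doubleFactorial (2 * m - 1) : ℝ) * (1 + 2 * r) ^ (2 * m))) =
      (2 * Ξ * (1 + 2 * r)) ^ (2 * m) / (2 ^ m * (m.factorial : ℝ)) := by
    have h7 := Pool.Agent.K4H4.GL.dfac m
    have e6 : (4 : ℝ) ^ m = 2 ^ (2 * m) := by rw [pow_mul]; norm_num
    calc Ξ ^ (2 * m) / ((2 * m).factorial : ℝ) * (4 ^ m * ((Nat.doubleFactorial (2 * m - 1) : ℝ) * (1 + 2 * r) ^ (2 * m))) =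
        (2 ^ (2 * m) * Ξ ^ (2 * m) * (1 + 2 * r) ^ (2 * m)) * ((Nat.doubleFactorial (2 * m - 1) : ℝ) / ((2 * m).factorial : ℝ)) := by rw [e6]; ring
      _ = (2 ^ (2 * m) * Ξ ^ (2 * m) * (1 + 2 * r) ^ (2 * m)) * (1 / (2 ^ m * (m.factorial : ℝ))) := by rw [h7]
      _ = _ := by rw [mul_pow, mul_pow]; ring
  have h8 : Ξ ^ (2 * m) / ((2 * m).factorial : ℝ) * (μ (2 * m) + 2 ^ (2 * m) * 2 ^ d / Real.sqrt K) ≤
      Ξ ^ (2 * m) / ((2 * m).factorial : ℝ) * ((4 ^ m * ((Nat.doubleFactorial (2 * m - 1) : ℝ) * (1 + 2 * r) ^ (2 * m)) + Cm / Real.sqrt K) +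
        2 ^ (2 * m) * 2 ^ d / Real.sqrt K) := by
    apply mul_le_mul_of_nonneg_left _ (by positivity)
    linarith
  have e9 : ∑ k ∈ range (2 * m), Ξ ^ k / (k.factorial : ℝ) * (2 ^ k * 2 ^ d / Real.sqrt K) =
      (∑ k ∈ range (2 * m), Ξ ^ k / (k.factorial : ℝ) * (2 ^ k * 2 ^ d)) / Real.sqrt K := by
    rw [sum_div]
    exact sum_congr rfl fun k _ => by ring
  rw [e9]
  refine (add_le_add h8 le_rfl).trans (le_of_eq ?_)
  rw [← hfac]
  ring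

/-- a power of `K` is smaller than a power of `K` with a larger exponent -/
lemma size (r m : ℕ) : ∃ C : ℕ, 1 ≤ C ∧ ∀ K : ℕ, C ≤ K → (K : ℝ) ^ (2 * m) * (pr (K + r) : ℝ) ^ (2 * m * r) * Real.sqrt K ≤ ((K ^ C : ℕ) : ℝ) := by
  obtain ⟨K₀, hK₀⟩ := pr_le r
  refine ⟨K₀ + 1 + (2 * m + 3 * (2 * m * r) + 1), by omega, fun K hK => ?_⟩
  have hK1 : (1 : ℝ) ≤ K := by exact_mod_cast (by omega : 1 ≤ K)
  have hp := hK₀ K (by omega)
  have h1 : (pr (K + r) : ℝ) ^ (2 * m * r) ≤ (K : ℝ) ^ (3 * (2 * m * r)) := by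
    rw [pow_mul (K : ℝ) 3]
    exact pow_le_pow_left₀ (by positivity) hp _
  have h2 : Real.sqrt K ≤ K := by
    rw [Real.sqrt_le_left (by linarith)]
    nlinarith
  have h3 : (K : ℝ) ^ (2 * m) * (pr (K + r) : ℝ) ^ (2 * m * r) * Real.sqrt K ≤ (K : ℝ) ^ (2 * m) * (K : ℝ) ^ (3 * (2 * m * r)) * K :=
    mul_le_mul (mul_le_mul_of_nonneg_left h1 (by positivity)) h2 (by positivity) (by positivity)
  refine h3.trans ?_
  have e : (K : ℝ) ^ (2 * m) * (K : ℝ) ^ (3 * (2 * m * r)) * K = (K : ℝ) ^ (2 * m + 3 * (2 * m * r) + 1) := by ring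
  rw [e]
  push_cast
  exact pow_le_pow_right₀ hK1 (by omega)

/-- **The exponentials over two boxes.** -/
theorem osc (d r : ℕ) (hr : 1 ≤ r) (Ξ δ : ℝ) (hΞ : 0 ≤ Ξ) (hδ : 0 < δ) : ∃ C : ℕ, ∀ g : ℕ → (Fin d → ℤ) → ℝ,
    (∀ k, PerZ (PI (Ico k (k + r))) (g k)) → (∀ k t, |g k t| ≤ 1) → ∀ (K : ℕ) (N N' : Fin d → ℕ) (u u' : Fin d → ℤ), C ≤ K →
    (∀ i, K ^ C ≤ N i) → (∀ i, K ^ C ≤ N' i) → ∀ ξ : ℝ, |ξ| ≤ Ξ →
      ‖(∑ n ∈ par N, Complex.exp ((ξ * sd g r K (fun i => u i + n i) : ℝ) * Complex.I)) / ((par N).card : ℂ) -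
        (∑ n ∈ par N', Complex.exp ((ξ * sd g r K (fun i => u' i + n i) : ℝ) * Complex.I)) / ((par N').card : ℂ)‖ ≤ δ := by
  have hr0 : (0 : ℝ) ≤ r := Nat.cast_nonneg r
  obtain ⟨m, hm⟩ : ∃ m : ℕ, (2 * Ξ * (1 + 2 * r)) ^ (2 * m) / (2 ^ m * (m.factorial : ℝ)) < δ / 4 := by
    have h1 := FloorSemiring.tendsto_pow_div_factorial_atTop ((2 * Ξ * (1 + 2 * (r : ℝ))) ^ 2 / 2)
    obtain ⟨m, hm⟩ := (h1.eventually (gt_mem_nhds (show (0 : ℝ) < δ / 4 by positivity))).exists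
    refine ⟨m, lt_of_le_of_lt (le_of_eq ?_) hm⟩
    rw [div_pow, ← pow_mul, div_div]
  obtain ⟨C, hC, hosc⟩ := osc_one d r m hr Ξ hΞ
  obtain ⟨C₁, hC₁1, hC₁⟩ := size r m
  obtain ⟨C₂, hC₂⟩ := exists_nat_ge ((4 * C / δ) ^ 2)
  refine ⟨C₁ + C₂ + 1, fun g hg hb K N N' u u' hK hN hN' ξ hξ => ?_⟩
  have hK1 : 1 ≤ K := by omega
  have hKr : (1 : ℝ) ≤ K := by exact_mod_cast hK1
  have hσ0 : 0 < Real.sqrt K := Real.sqrt_pos.2 (by linarith)
  obtain ⟨c, hc⟩ := hosc g hg hb K hK1 ξ hξ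
  have hbig : ∀ N : Fin d → ℕ, (∀ i, K ^ (C₁ + C₂ + 1) ≤ N i) →
      (∀ i, (K : ℝ) ^ (2 * m) * (pr (K + r) : ℝ) ^ (2 * m * r) * Real.sqrt K ≤ N i) ∧ ∀ i, 1 ≤ N i := by
    intro N hN
    refine ⟨fun i => (hC₁ K (by omega)).trans ?_, fun i => (Nat.one_le_pow _ _ hK1).trans (hN i)⟩
    exact_mod_cast (Nat.pow_le_pow_right hK1 (by omega)).trans (hN i)
  have h1 := hc N u (hbig N hN).1 (hbig N hN).2
  have h2 := hc N' u' (hbig N' hN').1 (hbig N' hN').2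
  have h3 : C / Real.sqrt K ≤ δ / 4 := by
    rw [div_le_iff₀ hσ0]
    have h4 : 4 * C / δ ≤ Real.sqrt K := by
      apply Real.le_sqrt_of_sq_le
      refine hC₂.trans ?_
      exact_mod_cast (by omega : C₂ ≤ K)
    rw [div_le_iff₀ hδ] at h4
    linarith
  have h5 := norm_sub_le_norm_sub_add_norm_sub ((∑ n ∈ par N, Complex.exp ((ξ * sd g r K (fun i => u i + n i) : ℝ) * Complex.I)) / ((par N).card : ℂ)) c
    ((∑ n ∈ par N', Complex.exp ((ξ * sd g r K (fun i => u' i + n i) : ℝ) * Complex.I)) / ((par N').card : ℂ))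
  rw [norm_sub_rev c] at h5
  linarith

end Pool.Agent.K4H4.UL
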