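import Mathlib

set_option autoImplicit false

/-! Two finite distributions in several dimensions: bounded Lipschitz functions against exponentials. -/

namespace Pool.Agent.K4H4.UL
open Finset

/-- the grid -/
noncomputable def gp (m l : ℕ) : ℝ := 2 * Real.pi * l / m

/-- the kernel -/
noncomputable def ker (M : ℕ) (u : ℝ) : ℝ := ((1 + Real.cos u) / 2) ^ M

/-- the mean of the kernel -/
noncomputable def beta (M : ℕ) : ℝ := (Nat.centralBinom M : ℝ) / 4 ^ M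

lemma beta_pos (M : ℕ) : 0 < beta M := by
  unfold beta
  have : (0 : ℝ) < Nat.centralBinom M := by exact_mod_cast Nat.centralBinom_pos M
  positivity

lemma beta_succ (M : ℕ) : beta (M + 1) = beta M * ((2 * M + 1) / (2 * M + 2)) := by
  unfold beta
  have h := Nat.succ_mul_centralBinom_succ M
  have h1 : ((M : ℝ) + 1) * Nat.centralBinom (M + 1) = 2 * (2 * M + 1) * Nat.centralBinom M := by exact_mod_cast h
  have h2 : (0 : ℝ) < (M : ℝ) + 1 := by positivity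
  have h3 : (Nat.centralBinom (M + 1) : ℝ) = 2 * (2 * M + 1) * Nat.centralBinom M / (M + 1) := by
    rw [eq_div_iff h2.ne']
    linarith
  rw [h3, pow_succ]
  field_simp
  ring

lemma ker_nonneg (M : ℕ) (u : ℝ) : 0 ≤ ker M u := by
  unfold ker
  have := Real.neg_one_le_cos u
  apply pow_nonneg
  linarith

/-- the kernel as a trigonometric polynomial -/
lemma ker_exp (M : ℕ) (u : ℝ) : ((ker M u : ℝ) : ℂ) =
    ∑ j ∈ range (2 * M + 1), ((Nat.choose (2 * M) j : ℝ) / 4 ^ M : ℝ) * Complex.exp ((((j : ℝ) - M) * u : ℝ) * Complex.I) := by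
  have h1 : (((1 + Real.cos u) / 2 : ℝ) : ℂ) = (1 + Complex.exp (u * Complex.I)) ^ 2 / (4 * Complex.exp (u * Complex.I)) := by
    have h2 : Complex.exp (u * Complex.I) ≠ 0 := Complex.exp_ne_zero _
    rw [eq_div_iff (by simp)]
    push_cast
    have h3 : Complex.cos (u : ℂ) = (Complex.exp (u * Complex.I) + Complex.exp (-u * Complex.I)) / 2 := rfl
    rw [h3]
    have h4 : Complex.exp (-(u : ℂ) * Complex.I) * Complex.exp (u * Complex.I) = 1 := by
      rw [← Complex.exp_add]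
      have : -(u : ℂ) * Complex.I + u * Complex.I = 0 := by ring
      rw [this, Complex.exp_zero]
    linear_combination h4
  unfold ker
  push_cast
  have h5 : (((1 + Real.cos u) / 2 : ℝ) : ℂ) ^ M = (1 + Complex.exp (u * Complex.I)) ^ (2 * M) / (4 ^ M * Complex.exp (u * Complex.I) ^ M) := by
    rw [h1, div_pow, mul_pow, ← pow_mul]
  have h6 : (1 + Complex.cos (u : ℂ)) / 2 = (((1 + Real.cos u) / 2 : ℝ) : ℂ) := by push_cast; rfl
  rw [h6, h5, add_comm (1 : ℂ), add_pow, sum_div]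
  refine sum_congr rfl fun j hj => ?_
  have h7 : Complex.exp (u * Complex.I) ^ j = Complex.exp (((((j : ℝ) - M) * u : ℝ) : ℂ) * Complex.I) * Complex.exp (u * Complex.I) ^ M := by
    rw [← Complex.exp_nat_mul, ← Complex.exp_nat_mul, ← Complex.exp_add]
    congr 1
    push_cast
    ring
  rw [one_pow, mul_one, h7]
  have h8 : Complex.exp (u * Complex.I) ^ M ≠ 0 := pow_ne_zero _ (Complex.exp_ne_zero _)
  have h9 : (4 : ℂ) ^ M ≠ 0 := pow_ne_zero _ (by norm_num)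
  push_cast
  field_simp

lemma root_sum (m : ℕ) (hm : 0 < m) (a : ℤ) (ha : ¬ (m : ℤ) ∣ a) (x : ℝ) :
    ∑ l ∈ range m, Complex.exp (((a : ℝ) * (x - gp m l) : ℝ) * Complex.I) = 0 := by
  obtain ⟨ζ, hζ⟩ : ∃ ζ : ℂ, ζ = Complex.exp (-(2 * Real.pi * Complex.I * a / m)) := ⟨_, rfl⟩
  have hm0 : (m : ℂ) ≠ 0 := by exact_mod_cast hm.ne'
  have h1 : ∀ l ∈ range m, Complex.exp (((a : ℝ) * (x - gp m l) : ℝ) * Complex.I) = Complex.exp ((a * x : ℝ) * Complex.I) * ζ ^ l := by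
    intro l _
    rw [hζ, ← Complex.exp_nat_mul, ← Complex.exp_add]
    congr 1
    unfold gp
    push_cast
    field_simp
    ring
  rw [sum_congr rfl h1, ← mul_sum]
  have hpow : ζ ^ m = 1 := by
    rw [hζ, ← Complex.exp_nat_mul]
    have e : (m : ℂ) * -(2 * Real.pi * Complex.I * a / m) = ((-a : ℤ) : ℂ) * (2 * Real.pi * Complex.I) := by
      push_cast
      field_simp
    rw [e]
    exact Complex.exp_int_mul_two_pi_mul_I _
  have hne : ζ ≠ 1 := by
    rw [hζ]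
    intro h
    rw [Complex.exp_eq_one_iff] at h
    obtain ⟨n, hn⟩ := h
    apply ha
    refine ⟨-n, ?_⟩
    have h2 : (2 * (Real.pi : ℂ) * Complex.I) ≠ 0 := Complex.two_pi_I_ne_zero
    have h3 : -((a : ℂ) / m) = n := by
      have h4 : (2 * (Real.pi : ℂ) * Complex.I) * (-((a : ℂ) / m)) = (2 * (Real.pi : ℂ) * Complex.I) * n := by
        rw [← mul_comm (n : ℂ), ← hn]
        ring
      exact mul_left_cancel₀ h2 h4
    have h5 : (a : ℂ) = ((m : ℤ) * (-n) : ℤ) := by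
      push_cast
      rw [← h3]
      field_simp
    exact_mod_cast h5
  have h2 := geom_sum_mul ζ m
  rw [hpow, sub_self] at h2
  have h3 : ζ - 1 ≠ 0 := sub_ne_zero.2 hne
  rcases mul_eq_zero.1 h2 with h4 | h4
  · rw [h4, mul_zero]
  · exact absurd h4 h3

lemma ker_sum (M m : ℕ) (hm : M < m) (x : ℝ) : ∑ l ∈ range m, ker M (x - gp m l) = m * beta M := by
  have h1 : ((∑ l ∈ range m, ker M (x - gp m l) : ℝ) : ℂ) = ((m * beta M : ℝ) : ℂ) := by
    push_cast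
    rw [sum_congr rfl fun l _ => ker_exp M (x - gp m l), sum_comm]
    rw [sum_eq_single M]
    · rw [← mul_sum]
      have h2 : ∀ l ∈ range m, Complex.exp ((((M : ℝ) - M) * (x - gp m l) : ℝ) * Complex.I) = 1 := by
        intro l _
        rw [sub_self, zero_mul]
        simp
      rw [sum_congr rfl h2, sum_const, card_range, nsmul_eq_mul, mul_one]
      unfold beta
      rw [Nat.centralBinom_eq_two_mul_choose]
      push_cast
      ring
    · intro j hj hjM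
      rw [← mul_sum]
      have h2 := root_sum m (by omega) ((j : ℤ) - M) (by
        intro h3
        rw [mem_range] at hj
        have h4 : ((j : ℤ) - M) ≠ 0 := by
          intro h5
          apply hjM
          omega
        have h6 := Int.le_of_dvd (abs_pos.2 h4) ((dvd_abs _ _).2 h3)
        have h7 : |(j : ℤ) - M| ≤ M := by
          rw [abs_le]
          constructor <;> omega
        omega) x
      push_cast at h2
      push_cast
      rw [h2, mul_zero]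
    · intro h
      exact absurd (mem_range.2 (by omega)) h
  exact_mod_cast h1

lemma sin_sq_half (u : ℝ) : Real.sin (u / 2) ^ 2 = 1 - (1 + Real.cos u) / 2 := by
  have h := Real.cos_sq' (u / 2)
  have h2 := Real.cos_two_mul (u / 2)
  have e : 2 * (u / 2) = u := by ring
  rw [e] at h2
  linarith

lemma ker_second (M m : ℕ) (hm : M + 1 < m) (x : ℝ) :
    ∑ l ∈ range m, ker M (x - gp m l) * Real.sin ((x - gp m l) / 2) ^ 2 = m * beta M * (1 / (2 * M + 2)) := by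
  have h1 : ∀ l ∈ range m, ker M (x - gp m l) * Real.sin ((x - gp m l) / 2) ^ 2 = ker M (x - gp m l) - ker (M + 1) (x - gp m l) := by
    intro l _
    rw [sin_sq_half]
    unfold ker
    rw [pow_succ]
    ring
  rw [sum_congr rfl h1, sum_sub_distrib, ker_sum M m (by omega), ker_sum (M + 1) m hm, beta_succ]
  field_simp
  ring

/-- the weights -/
noncomputable def wt (M l : ℕ) (x : ℝ) : ℝ := ker M (x - gp (M + 2) l) / ((M + 2 : ℕ) * beta M)

lemma wt_nonneg (M l : ℕ) (x : ℝ) : 0 ≤ wt M l x := by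
  unfold wt
  have := beta_pos M
  exact div_nonneg (ker_nonneg _ _) (by positivity)

lemma wt_sum (M : ℕ) (x : ℝ) : ∑ l ∈ range (M + 2), wt M l x = 1 := by
  unfold wt
  rw [← sum_div, ker_sum M (M + 2) (by omega)]
  have := beta_pos M
  exact div_self (by positivity)

lemma wt_sin (M : ℕ) (x : ℝ) : ∑ l ∈ range (M + 2), wt M l x * |Real.sin ((x - gp (M + 2) l) / 2)| ≤ 1 / Real.sqrt (2 * M + 2) := by
  have h0 : (0 : ℝ) < 2 * M + 2 := by positivity
  have h1 : ∑ l ∈ range (M + 2), wt M l x * Real.sin ((x - gp (M + 2) l) / 2) ^ 2 = 1 / (2 * M + 2) := by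
    have h2 := ker_second M (M + 2) (by omega) x
    have h3 := beta_pos M
    have h4 : (0 : ℝ) < ((M + 2 : ℕ) : ℝ) * beta M := by positivity
    unfold wt
    rw [sum_congr rfl fun l _ => div_mul_eq_mul_div _ _ _, ← sum_div, h2]
    field_simp
  -- Cauchy-Schwarz by completing the square
  obtain ⟨t, ht⟩ : ∃ t : ℝ, t = 1 / Real.sqrt (2 * M + 2) := ⟨_, rfl⟩
  have ht0 : 0 < t := by rw [ht]; have := Real.sqrt_pos.2 h0; positivity
  have ht2 : t ^ 2 = 1 / (2 * M + 2) := by rw [ht, div_pow, one_pow, Real.sq_sqrt h0.le]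
  rw [← ht]
  have h2 : ∀ l ∈ range (M + 2), wt M l x * |Real.sin ((x - gp (M + 2) l) / 2)| * (2 * t) ≤
      wt M l x * Real.sin ((x - gp (M + 2) l) / 2) ^ 2 + wt M l x * t ^ 2 := by
    intro l _
    have h3 := wt_nonneg M l x
    have h4 := sq_abs (Real.sin ((x - gp (M + 2) l) / 2))
    have h5 := sq_nonneg (|Real.sin ((x - gp (M + 2) l) / 2)| - t)
    nlinarith
  have h3 := sum_le_sum h2
  rw [← sum_mul, sum_add_distrib, ← sum_mul, wt_sum, h1, one_mul, ht2] at h3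
  have h4 : (∑ l ∈ range (M + 2), wt M l x * |Real.sin ((x - gp (M + 2) l) / 2)|) * (2 * t) ≤ t * (2 * t) := by
    refine h3.trans (le_of_eq ?_)
    rw [← ht2]
    ring
  exact le_of_mul_le_mul_right h4 (by positivity)

lemma sin_sub_le (a b : ℝ) : |Real.sin a - Real.sin b| ≤ 2 * |Real.sin ((a - b) / 2)| := by
  rw [Real.sin_sub_sin, abs_mul, abs_mul, abs_of_pos (by norm_num : (0 : ℝ) < 2)]
  have h := Real.abs_cos_le_one ((a + b) / 2)
  have h2 := abs_nonneg (Real.sin ((a - b) / 2))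
  nlinarith

lemma sub_sin_le (y : ℝ) : |y - Real.sin y| ≤ 2 * y ^ 2 := by
  rcases le_or_gt |y| 1 with h | h
  · have h1 := Real.sin_bound h
    have h2 : |y - Real.sin y| ≤ |y| ^ 3 / 6 + |y| ^ 5 / 100 := by
      have e : y - Real.sin y = y ^ 3 / 6 + -(Real.sin y - (y - y ^ 3 / 6)) := by ring
      rw [e]
      refine (abs_add_le _ _).trans ?_
      rw [abs_neg, abs_div, abs_pow, abs_of_pos (by norm_num : (0 : ℝ) < 6)]
      linarith
    have h0 := abs_nonneg y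
    have h3 : |y| ^ 3 ≤ |y| ^ 2 := pow_le_pow_of_le_one h0 h (by norm_num)
    have h4 : |y| ^ 5 ≤ |y| ^ 2 := pow_le_pow_of_le_one h0 h (by norm_num)
    have h5 := sq_abs y
    rw [h5] at h3 h4
    have := sq_nonneg y
    linarith
  · have h1 : |y - Real.sin y| ≤ |y| + 1 := (abs_sub _ _).trans (by have := Real.abs_sin_le_one y; linarith)
    have h2 := sq_abs y
    nlinarith

section
variable {κ : Type} [Fintype κ] [DecidableEq κ]

/-- the grid points of the product -/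
noncomputable def Gr (κ : Type) [Fintype κ] [DecidableEq κ] (M : ℕ) : Finset (κ → ℕ) := Fintype.piFinset (fun _ => range (M + 2))

/-- the product weights -/
noncomputable def WT (M : ℕ) (l : κ → ℕ) (x : κ → ℝ) : ℝ := ∏ i, wt M (l i) (x i)

lemma WT_nonneg (M : ℕ) (l : κ → ℕ) (x : κ → ℝ) : 0 ≤ WT M l x := prod_nonneg fun _ _ => wt_nonneg _ _ _

lemma WT_sum (M : ℕ) (x : κ → ℝ) : ∑ l ∈ Gr κ M, WT M l x = 1 := by
  have h := Finset.prod_univ_sum (fun _ : κ => range (M + 2)) (fun i l => wt M l (x i))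
  unfold Gr WT
  rw [← h]
  exact prod_eq_one fun i _ => wt_sum M (x i)

lemma WT_sin (M : ℕ) (x : κ → ℝ) (i₀ : κ) :
    ∑ l ∈ Gr κ M, WT M l x * |Real.sin ((x i₀ - gp (M + 2) (l i₀)) / 2)| ≤ 1 / Real.sqrt (2 * M + 2) := by
  have h := Finset.prod_univ_sum (fun _ : κ => range (M + 2))
    (fun i l => wt M l (x i) * (if i = i₀ then |Real.sin ((x i - gp (M + 2) l) / 2)| else 1))
  have e : ∀ l : κ → ℕ, ∏ i, (wt M (l i) (x i) * (if i = i₀ then |Real.sin ((x i - gp (M + 2) (l i)) / 2)| else 1)) =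
      WT M l x * |Real.sin ((x i₀ - gp (M + 2) (l i₀)) / 2)| := by
    intro l
    rw [prod_mul_distrib]
    congr 1
    rw [prod_ite_eq' univ i₀ (fun i => |Real.sin ((x i - gp (M + 2) (l i)) / 2)|), if_pos (mem_univ _)]
  unfold Gr
  rw [← sum_congr rfl fun l _ => e l, ← h]
  have h2 : ∀ i, ∑ l ∈ range (M + 2), wt M l (x i) * (if i = i₀ then |Real.sin ((x i - gp (M + 2) l) / 2)| else 1) =
      if i = i₀ then ∑ l ∈ range (M + 2), wt M l (x i) * |Real.sin ((x i - gp (M + 2) l) / 2)| else 1 := by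
    intro i
    split_ifs
    · rfl
    · rw [sum_congr rfl fun l _ => mul_one _]
      exact wt_sum M (x i)
  rw [prod_congr rfl fun i _ => h2 i, prod_ite_eq' univ i₀ (fun i => ∑ l ∈ range (M + 2), wt M l (x i) * |Real.sin ((x i - gp (M + 2) l) / 2)|),
    if_pos (mem_univ _)]
  exact wt_sin M (x i₀)

/-- the trigonometric approximation -/
noncomputable def tp (M : ℕ) (A : ℝ) (F : (κ → ℝ) → ℝ) (x : κ → ℝ) : ℝ :=
  ∑ l ∈ Gr κ M, F (fun i => A * Real.sin (gp (M + 2) (l i))) * WT M l (fun i => x i / A)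

lemma tp_close (M : ℕ) (A : ℝ) (hA : 0 < A) (F : (κ → ℝ) → ℝ) (hF : ∀ x y, |F x - F y| ≤ ∑ i, |x i - y i|) (x : κ → ℝ) :
    |F x - tp M A F x| ≤ 2 / A * ∑ i, x i ^ 2 + 2 * A * Fintype.card κ / Real.sqrt (2 * M + 2) := by
  have h1 : |F x - F (fun i => A * Real.sin (x i / A))| ≤ 2 / A * ∑ i, x i ^ 2 := by
    refine (hF _ _).trans ?_
    rw [mul_sum]
    refine sum_le_sum fun i _ => ?_
    have e : x i - A * Real.sin (x i / A) = A * (x i / A - Real.sin (x i / A)) := by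
      field_simp
    rw [e, abs_mul, abs_of_pos hA]
    refine (mul_le_mul_of_nonneg_left (sub_sin_le _) hA.le).trans (le_of_eq ?_)
    field_simp
  have h2 : |F (fun i => A * Real.sin (x i / A)) - tp M A F x| ≤ 2 * A * Fintype.card κ / Real.sqrt (2 * M + 2) := by
    have e : F (fun i => A * Real.sin (x i / A)) - tp M A F x =
        ∑ l ∈ Gr κ M, (F (fun i => A * Real.sin (x i / A)) - F (fun i => A * Real.sin (gp (M + 2) (l i)))) * WT M l (fun i => x i / A) := by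
      unfold tp
      rw [sum_congr rfl fun l _ => sub_mul _ _ _, sum_sub_distrib, ← mul_sum, WT_sum, mul_one]
    rw [e]
    refine (abs_sum_le_sum_abs _ _).trans ?_
    have h3 : ∀ l ∈ Gr κ M, |(F (fun i => A * Real.sin (x i / A)) - F (fun i => A * Real.sin (gp (M + 2) (l i)))) * WT M l (fun i => x i / A)| ≤
        ∑ i, 2 * A * (WT M l (fun i => x i / A) * |Real.sin ((x i / A - gp (M + 2) (l i)) / 2)|) := by
      intro l _
      rw [abs_mul, abs_of_nonneg (WT_nonneg _ _ _)]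
      have h4 : |F (fun i => A * Real.sin (x i / A)) - F (fun i => A * Real.sin (gp (M + 2) (l i)))| ≤
          ∑ i, 2 * A * |Real.sin ((x i / A - gp (M + 2) (l i)) / 2)| := by
        refine (hF _ _).trans (sum_le_sum fun i _ => ?_)
        rw [← mul_sub, abs_mul, abs_of_pos hA]
        have := mul_le_mul_of_nonneg_left (sin_sub_le (x i / A) (gp (M + 2) (l i))) hA.le
        linarith
      refine (mul_le_mul_of_nonneg_right h4 (WT_nonneg _ _ _)).trans (le_of_eq ?_)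
      rw [sum_mul]
      exact sum_congr rfl fun i _ => by ring
    refine (sum_le_sum h3).trans ?_
    rw [sum_comm]
    have h5 : ∀ i ∈ (univ : Finset κ), ∑ l ∈ Gr κ M, 2 * A * (WT M l (fun i => x i / A) * |Real.sin ((x i / A - gp (M + 2) (l i)) / 2)|) ≤
        2 * A * (1 / Real.sqrt (2 * M + 2)) := by
      intro i _
      rw [← mul_sum]
      exact mul_le_mul_of_nonneg_left (WT_sin M (fun i => x i / A) i) (by linarith)
    refine (sum_le_sum h5).trans (le_of_eq ?_)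
    rw [sum_const, card_univ, nsmul_eq_mul]
    ring
  exact (abs_sub_le _ _ _).trans (add_le_add h1 h2)

/-- the product weights as trigonometric polynomials -/
lemma WT_exp (M : ℕ) (l : κ → ℕ) (x : κ → ℝ) : ((WT M l x : ℝ) : ℂ) = ∑ j ∈ Fintype.piFinset (fun _ : κ => range (2 * M + 1)),
    (∏ i, ((((Nat.choose (2 * M) (j i) : ℝ) / 4 ^ M / ((M + 2 : ℕ) * beta M) : ℝ) : ℂ) *
      Complex.exp ((-(((j i : ℝ) - M) * gp (M + 2) (l i)) : ℝ) * Complex.I))) *
    Complex.exp ((∑ i, ((j i : ℝ) - M) * x i : ℝ) * Complex.I) := by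
  have h1 : ∀ i, ((wt M (l i) (x i) : ℝ) : ℂ) = ∑ j ∈ range (2 * M + 1),
      ((((Nat.choose (2 * M) j : ℝ) / 4 ^ M / ((M + 2 : ℕ) * beta M) : ℝ) : ℂ) *
      Complex.exp ((-(((j : ℝ) - M) * gp (M + 2) (l i)) : ℝ) * Complex.I)) * Complex.exp ((((j : ℝ) - M) * x i : ℝ) * Complex.I) := by
    intro i
    unfold wt
    rw [Complex.ofReal_div, ker_exp, sum_div]
    refine sum_congr rfl fun j _ => ?_
    have e : Complex.exp ((((j : ℝ) - M) * (x i - gp (M + 2) (l i)) : ℝ) * Complex.I) =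
        Complex.exp ((-(((j : ℝ) - M) * gp (M + 2) (l i)) : ℝ) * Complex.I) * Complex.exp ((((j : ℝ) - M) * x i : ℝ) * Complex.I) := by
      rw [← Complex.exp_add]
      congr 1
      push_cast
      ring
    rw [e]
    push_cast
    ring
  unfold WT
  push_cast
  have h2 := Finset.prod_univ_sum (fun _ : κ => range (2 * M + 1)) (fun i j =>
      ((((Nat.choose (2 * M) j : ℝ) / 4 ^ M / ((M + 2 : ℕ) * beta M) : ℝ) : ℂ) *
      Complex.exp ((-(((j : ℝ) - M) * gp (M + 2) (l i)) : ℝ) * Complex.I)) * Complex.exp ((((j : ℝ) - M) * x i : ℝ) * Complex.I))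
  rw [prod_congr rfl fun i _ => h1 i, h2]
  refine sum_congr rfl fun j _ => ?_
  rw [prod_mul_distrib, ← Complex.exp_sum]
  congr 1
  · push_cast
    rfl
  · congr 1
    push_cast
    rw [sum_mul]

/-- the difference of the averages of a function -/
noncomputable def La {ι₁ ι₂ : Type} (S₁ : Finset ι₁) (S₂ : Finset ι₂) (X₁ : ι₁ → κ → ℝ) (X₂ : ι₂ → κ → ℝ) (f : (κ → ℝ) → ℂ) : ℂ :=
  (∑ n ∈ S₁, f (X₁ n)) / (S₁.card : ℂ) - (∑ n ∈ S₂, f (X₂ n)) / (S₂.card : ℂ)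

omit [Fintype κ] [DecidableEq κ] in
lemma La_sum {ι₁ ι₂ α : Type} (S₁ : Finset ι₁) (S₂ : Finset ι₂) (X₁ : ι₁ → κ → ℝ) (X₂ : ι₂ → κ → ℝ) (J : Finset α) (c : α → ℂ)
    (f : α → (κ → ℝ) → ℂ) : La S₁ S₂ X₁ X₂ (fun x => ∑ j ∈ J, c j * f j x) = ∑ j ∈ J, c j * La S₁ S₂ X₁ X₂ (f j) := by
  unfold La
  rw [sum_comm, sum_comm (s := S₂), sum_div, sum_div, ← sum_sub_distrib]
  refine sum_congr rfl fun j _ => ?_
  rw [← mul_sum, ← mul_sum]
  ring

lemma WT_La {ι₁ ι₂ : Type} (S₁ : Finset ι₁) (S₂ : Finset ι₂) (X₁ : ι₁ → κ → ℝ) (X₂ : ι₂ → κ → ℝ) (M : ℕ) (A δ : ℝ)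
    (hexp : ∀ k : κ → ℤ, (∀ i, |k i| ≤ M) → ‖La S₁ S₂ X₁ X₂ (fun x => Complex.exp ((∑ i, (k i : ℝ) * (x i / A) : ℝ) * Complex.I))‖ ≤ δ)
    (l : κ → ℕ) : ‖La S₁ S₂ X₁ X₂ (fun x => ((WT M l (fun i => x i / A) : ℝ) : ℂ))‖ ≤ (1 / ((M + 2 : ℕ) * beta M)) ^ Fintype.card κ * δ := by
  have hb := beta_pos M
  have e : (fun x : κ → ℝ => ((WT M l (fun i => x i / A) : ℝ) : ℂ)) = fun x => ∑ j ∈ Fintype.piFinset (fun _ : κ => range (2 * M + 1)),
      (∏ i, ((((Nat.choose (2 * M) (j i) : ℝ) / 4 ^ M / ((M + 2 : ℕ) * beta M) : ℝ) : ℂ) *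
      Complex.exp ((-(((j i : ℝ) - M) * gp (M + 2) (l i)) : ℝ) * Complex.I))) *
      Complex.exp ((∑ i, ((j i : ℝ) - M) * (x i / A) : ℝ) * Complex.I) := by
    funext x
    exact WT_exp M l _
  rw [e, La_sum]
  refine (norm_sum_le _ _).trans ?_
  have h1 : ∀ j ∈ Fintype.piFinset (fun _ : κ => range (2 * M + 1)),
      ‖(∏ i, ((((Nat.choose (2 * M) (j i) : ℝ) / 4 ^ M / ((M + 2 : ℕ) * beta M) : ℝ) : ℂ) *
      Complex.exp ((-(((j i : ℝ) - M) * gp (M + 2) (l i)) : ℝ) * Complex.I))) *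
      La S₁ S₂ X₁ X₂ (fun x => Complex.exp ((∑ i, ((j i : ℝ) - M) * (x i / A) : ℝ) * Complex.I))‖ ≤
      (∏ i, ((Nat.choose (2 * M) (j i) : ℝ) / 4 ^ M / ((M + 2 : ℕ) * beta M))) * δ := by
    intro j hj
    rw [Fintype.mem_piFinset] at hj
    rw [norm_mul, norm_prod]
    have h2 : ∀ i, ‖((((Nat.choose (2 * M) (j i) : ℝ) / 4 ^ M / ((M + 2 : ℕ) * beta M) : ℝ) : ℂ) *
      Complex.exp ((-(((j i : ℝ) - M) * gp (M + 2) (l i)) : ℝ) * Complex.I))‖ = (Nat.choose (2 * M) (j i) : ℝ) / 4 ^ M / ((M + 2 : ℕ) * beta M) := by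
      intro i
      rw [norm_mul, Complex.norm_exp_ofReal_mul_I, mul_one, Complex.norm_real, Real.norm_eq_abs, abs_of_nonneg (by positivity)]
    rw [prod_congr rfl fun i _ => h2 i]
    apply mul_le_mul_of_nonneg_left _ (prod_nonneg fun i _ => by positivity)
    have h3 := hexp (fun i => (j i : ℤ) - M) (fun i => by
      have := mem_range.1 (hj i)
      rw [abs_le]
      constructor <;> omega)
    push_cast at h3
    push_cast
    exact h3
  refine (sum_le_sum h1).trans ?_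
  rw [← sum_mul]
  have h4 := Finset.prod_univ_sum (fun _ : κ => range (2 * M + 1)) (fun _ j => (Nat.choose (2 * M) j : ℝ) / 4 ^ M / ((M + 2 : ℕ) * beta M))
  have h5 : ∑ j ∈ range (2 * M + 1), (Nat.choose (2 * M) j : ℝ) / 4 ^ M / ((M + 2 : ℕ) * beta M) = 1 / ((M + 2 : ℕ) * beta M) := by
    rw [← sum_div, ← sum_div]
    have h6 : ∑ j ∈ range (2 * M + 1), (Nat.choose (2 * M) j : ℝ) = 4 ^ M := by
      have h7 := Nat.sum_range_choose (2 * M)
      have h8 : (2 : ℕ) ^ (2 * M) = 4 ^ M := by rw [pow_mul]; norm_num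
      rw [h8] at h7
      exact_mod_cast h7
    rw [h6, div_self (by positivity)]
  rw [← h4, prod_congr rfl fun i _ => h5, prod_const, card_univ]

/-- **Two laws.** -/
theorem two_laws {ι₁ ι₂ : Type} (S₁ : Finset ι₁) (S₂ : Finset ι₂) (hS₁ : S₁.Nonempty) (hS₂ : S₂.Nonempty) (X₁ : ι₁ → κ → ℝ)
    (X₂ : ι₂ → κ → ℝ) (M : ℕ) (A B δ : ℝ) (hA : 0 < A) (F : (κ → ℝ) → ℝ) (hF1 : ∀ x, |F x| ≤ 1)
    (hF : ∀ x y, |F x - F y| ≤ ∑ i, |x i - y i|) (h1 : ∑ n ∈ S₁, ∑ i, X₁ n i ^ 2 ≤ B * S₁.card) (h2 : ∑ n ∈ S₂, ∑ i, X₂ n i ^ 2 ≤ B * S₂.card)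
    (hexp : ∀ k : κ → ℤ, (∀ i, |k i| ≤ M) → ‖La S₁ S₂ X₁ X₂ (fun x => Complex.exp ((∑ i, (k i : ℝ) * (x i / A) : ℝ) * Complex.I))‖ ≤ δ) :
    |(∑ n ∈ S₁, F (X₁ n)) / (S₁.card : ℝ) - (∑ n ∈ S₂, F (X₂ n)) / (S₂.card : ℝ)| ≤
      4 * B / A + 4 * A * Fintype.card κ / Real.sqrt (2 * M + 2) + (4 ^ M) ^ Fintype.card κ * δ := by
  have hc₁ : (0 : ℝ) < S₁.card := by exact_mod_cast card_pos.2 hS₁
  have hc₂ : (0 : ℝ) < S₂.card := by exact_mod_cast card_pos.2 hS₂
  have hδ : 0 ≤ δ := (norm_nonneg _).trans (hexp (fun _ => 0) (fun i => by simp))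
  obtain ⟨E, hE⟩ : ∃ E, E = 2 * A * Fintype.card κ / Real.sqrt (2 * M + 2) := ⟨_, rfl⟩
  -- replace the function by the trigonometric polynomial
  have hrep : ∀ {ι : Type} (S : Finset ι) (X : ι → κ → ℝ), 0 < (S.card : ℝ) → ∑ n ∈ S, ∑ i, X n i ^ 2 ≤ B * S.card →
      |(∑ n ∈ S, F (X n)) / (S.card : ℝ) - (∑ n ∈ S, tp M A F (X n)) / (S.card : ℝ)| ≤ 2 * B / A + E := by
    intro ι S X hc hB
    rw [← sub_div, ← sum_sub_distrib, abs_div, abs_of_pos hc, div_le_iff₀ hc]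
    refine (abs_sum_le_sum_abs _ _).trans ((sum_le_sum fun n _ => tp_close M A hA F hF (X n)).trans ?_)
    rw [sum_add_distrib, sum_const, nsmul_eq_mul, ← mul_sum, ← hE]
    have h3 := mul_le_mul_of_nonneg_left hB (show (0 : ℝ) ≤ 2 / A by positivity)
    have e : (2 * B / A + E) * (S.card : ℝ) = 2 / A * (B * S.card) + S.card * E := by ring
    rw [e]
    linarith
  have hLa : |(∑ n ∈ S₁, tp M A F (X₁ n)) / (S₁.card : ℝ) - (∑ n ∈ S₂, tp M A F (X₂ n)) / (S₂.card : ℝ)| ≤ (4 ^ M) ^ Fintype.card κ * δ := by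
    have e1 : (((∑ n ∈ S₁, tp M A F (X₁ n)) / (S₁.card : ℝ) - (∑ n ∈ S₂, tp M A F (X₂ n)) / (S₂.card : ℝ) : ℝ) : ℂ) =
        ∑ l ∈ Gr κ M, ((F (fun i => A * Real.sin (gp (M + 2) (l i))) : ℝ) : ℂ) * La S₁ S₂ X₁ X₂ (fun x => ((WT M l (fun i => x i / A) : ℝ) : ℂ)) := by
      rw [← La_sum]
      unfold La tp
      push_cast
      rfl
    have e2 : |(∑ n ∈ S₁, tp M A F (X₁ n)) / (S₁.card : ℝ) - (∑ n ∈ S₂, tp M A F (X₂ n)) / (S₂.card : ℝ)| =
        ‖∑ l ∈ Gr κ M, ((F (fun i => A * Real.sin (gp (M + 2) (l i))) : ℝ) : ℂ) * La S₁ S₂ X₁ X₂ (fun x => ((WT M l (fun i => x i / A) : ℝ) : ℂ))‖ := by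
      rw [← e1, Complex.norm_real, Real.norm_eq_abs]
    rw [e2]
    refine (norm_sum_le _ _).trans ?_
    have hb := beta_pos M
    have h3 : ∀ l ∈ Gr κ M, ‖((F (fun i => A * Real.sin (gp (M + 2) (l i))) : ℝ) : ℂ) * La S₁ S₂ X₁ X₂ (fun x => ((WT M l (fun i => x i / A) : ℝ) : ℂ))‖ ≤
        1 * ((1 / ((M + 2 : ℕ) * beta M)) ^ Fintype.card κ * δ) := by
      intro l _
      rw [norm_mul, Complex.norm_real, Real.norm_eq_abs]
      exact mul_le_mul (hF1 _) (WT_La S₁ S₂ X₁ X₂ M A δ hexp l) (norm_nonneg _) (by norm_num)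
    refine (sum_le_sum h3).trans ?_
    rw [sum_const, one_mul, nsmul_eq_mul]
    have h4 : ((Gr κ M).card : ℝ) = ((M + 2 : ℕ) : ℝ) ^ Fintype.card κ := by
      unfold Gr
      rw [Fintype.card_piFinset, prod_const, card_univ, card_range]
      push_cast
      rfl
    rw [h4, ← mul_assoc, ← mul_pow]
    apply mul_le_mul_of_nonneg_right _ hδ
    apply pow_le_pow_left₀ (by positivity)
    have h5 : ((M + 2 : ℕ) : ℝ) * (1 / (((M + 2 : ℕ) : ℝ) * beta M)) = 1 / beta M := by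
      field_simp
    rw [h5, div_le_iff₀ hb]
    unfold beta
    have h6 : (1 : ℝ) ≤ Nat.centralBinom M := by exact_mod_cast Nat.centralBinom_pos M
    have h7 : (4 : ℝ) ^ M * ((Nat.centralBinom M : ℝ) / 4 ^ M) = Nat.centralBinom M := by field_simp
    rw [h7]
    exact h6
  have a1 := hrep S₁ X₁ hc₁ h1
  have a2 := hrep S₂ X₂ hc₂ h2
  rw [abs_sub_comm] at a2
  obtain ⟨f₁, hf₁⟩ : ∃ f₁, f₁ = (∑ n ∈ S₁, F (X₁ n)) / (S₁.card : ℝ) := ⟨_, rfl⟩
  obtain ⟨f₂, hf₂⟩ : ∃ f₂, f₂ = (∑ n ∈ S₂, F (X₂ n)) / (S₂.card : ℝ) := ⟨_, rfl⟩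
  obtain ⟨t₁, ht₁⟩ : ∃ t₁, t₁ = (∑ n ∈ S₁, tp M A F (X₁ n)) / (S₁.card : ℝ) := ⟨_, rfl⟩
  obtain ⟨t₂, ht₂⟩ : ∃ t₂, t₂ = (∑ n ∈ S₂, tp M A F (X₂ n)) / (S₂.card : ℝ) := ⟨_, rfl⟩
  rw [← hf₁, ← ht₁] at a1
  rw [← hf₂, ← ht₂] at a2
  rw [← ht₁, ← ht₂] at hLa
  rw [← hf₁, ← hf₂]
  have e : f₁ - f₂ = (f₁ - t₁) + (t₁ - t₂) + (t₂ - f₂) := by ring
  rw [e]
  have b1 := abs_add_le ((f₁ - t₁) + (t₁ - t₂)) (t₂ - f₂)
  have b2 := abs_add_le (f₁ - t₁) (t₁ - t₂)
  have e3 : 4 * B / A + 4 * A * Fintype.card κ / Real.sqrt (2 * M + 2) = (2 * B / A + E) + (2 * B / A + E) := by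
    rw [hE]
    ring
  rw [e3]
  linarith

end

end Pool.Agent.K4H4.UL
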