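import Pool.Agent.K4H4.SB.Box
import Pool.Agent.K4H4.UL.Lev
import Pool.Agent.K4H4.UL.Osc
import Pool.Agent.K4H4.UL.Trig

set_option autoImplicit false

/-! The deviations of all boxes are linear combinations of finitely many cells, up to a small error. -/

namespace Pool.Agent.K4H4.UL
open Finset
open Pool.Agent.K4H4.CL
open Pool.Agent.K4H4.SB
open Pool.Agent.TH894.NE (box mem_box card_box Per mean two_mod mean_mono mean_const mean_add mean_mul)

variable {d : ℕ}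

lemma log_le_rpow (q : ℕ) (hq : 1 ≤ q) (K : ℕ) (hK : 1 ≤ K) : Real.log K ≤ q * (K : ℝ) ^ (1 / (q : ℝ)) := by
  have hK0 : (0 : ℝ) < K := by exact_mod_cast hK
  have hq0 : (0 : ℝ) < q := by exact_mod_cast hq
  have h2 := Real.log_le_sub_one_of_pos (Real.rpow_pos_of_pos hK0 (1 / (q : ℝ)))
  rw [Real.log_rpow hK0] at h2
  have h3 : 1 / (q : ℝ) * Real.log K ≤ (K : ℝ) ^ (1 / (q : ℝ)) := by linarith
  rw [one_div_mul_eq_div, div_le_iff₀ hq0] at h3
  linarith

/-- the numbers of the levels, and the sizes -/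
lemma setup (d s : ℕ) : ∃ (C : ℕ) (c₁ : ℝ), 0 ≤ c₁ ∧ ∀ (θ : ℕ → (Fin d → ℤ) → ℝ) (K : ℕ), C ≤ K → ∃ (b : ℕ) (σ : ℝ),
    4 * (vals θ (K + s)).card ≤ 2 ^ b ∧ K < 2 ^ b ∧ 2 ^ d * ∏ i, (2 : ℝ) ^ (lev s (Nat.log 2 K + 1) b i) ≤ σ ∧ (K : ℝ) ≤ σ ^ 2 ∧
    (∀ N : ℕ, K ^ C ≤ N → (K : ℝ) ^ (2 * 2) * (pr (K + s) : ℝ) ^ (2 * 2 * s) * σ ≤ N) ∧
    ∏ i, (lev s (Nat.log 2 K + 1) b i : ℝ) ≤ c₁ * (K : ℝ) ^ (1 / (8 : ℝ)) := by
  obtain ⟨K₀, hK₀⟩ := pr_le s
  obtain ⟨c, hc⟩ : ∃ c : ℕ, c = 3 * d + 8 := ⟨_, rfl⟩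
  obtain ⟨q, hq⟩ : ∃ q : ℕ, q = 8 * (s + 1) := ⟨_, rfl⟩
  obtain ⟨c', hc'⟩ : ∃ c' : ℝ, c' = 2 * (c * q) := ⟨_, rfl⟩
  have hc'0 : 0 ≤ c' := by rw [hc']; positivity
  refine ⟨K₀ + s + 2 + (4 + 12 * s + d + 2 + c * s), c' ^ (s + 1), by positivity, fun θ K hK => ?_⟩
  have hK2 : 2 ≤ K := by omega
  have hK1' : 1 ≤ K := by omega
  have hK1 : (1 : ℝ) ≤ K := by exact_mod_cast hK1'
  have hK2' : (2 : ℝ) ≤ K := by exact_mod_cast hK2
  have hK0 : (0 : ℝ) < K := by linarith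
  have hsK : s ≤ K := by omega
  have hp := hK₀ K (by omega)
  obtain ⟨W, hW⟩ : ∃ W, W = (vals θ (K + s)).card := ⟨_, rfl⟩
  have hWle : (W : ℝ) ≤ 2 * K * (K : ℝ) ^ (3 * d) := by
    have h1 : (W : ℝ) ≤ ((K + s : ℕ) : ℝ) * (pr (K + s) : ℝ) ^ d := by rw [hW]; exact_mod_cast card_vals θ (K + s)
    refine h1.trans ?_
    have h2 : ((K + s : ℕ) : ℝ) ≤ 2 * K := by
      push_cast
      have : (s : ℝ) ≤ K := by exact_mod_cast hsK
      linarith
    have h3 : (pr (K + s) : ℝ) ^ d ≤ (K : ℝ) ^ (3 * d) := by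
      rw [pow_mul]
      exact pow_le_pow_left₀ (by positivity) hp d
    exact mul_le_mul h2 h3 (by positivity) (by positivity)
  obtain ⟨b, hb⟩ : ∃ b, b = (Nat.log 2 (4 * W + 4) + 1) + (Nat.log 2 K + 1) := ⟨_, rfl⟩
  have hlog1 : K < 2 ^ (Nat.log 2 K + 1) := Nat.lt_pow_succ_log_self (by norm_num) K
  have h4W : 4 * W + 4 < 2 ^ (Nat.log 2 (4 * W + 4) + 1) := Nat.lt_pow_succ_log_self (by norm_num) _
  have hb1 : 4 * W ≤ 2 ^ b := by
    rw [hb, pow_add]
    calc 4 * W ≤ 2 ^ (Nat.log 2 (4 * W + 4) + 1) * 1 := by omega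
      _ ≤ _ := Nat.mul_le_mul_left _ (Nat.one_le_pow _ _ (by norm_num))
  have hbK : K < 2 ^ b := by
    rw [hb, pow_add]
    calc K < 1 * 2 ^ (Nat.log 2 K + 1) := by rw [one_mul]; exact hlog1
      _ ≤ _ := Nat.mul_le_mul_right _ (Nat.one_le_pow _ _ (by norm_num))
  have hKd : (1 : ℝ) ≤ K * (K : ℝ) ^ (3 * d) := by
    have : (1 : ℝ) ≤ (K : ℝ) ^ (3 * d) := one_le_pow₀ hK1
    nlinarith
  have h2n : ∀ n : ℕ, (2 : ℝ) ^ n ≤ (K : ℝ) ^ n := fun n => pow_le_pow_left₀ (by norm_num) hK2' n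
  have hlog2 : (2 : ℝ) ^ (Nat.log 2 K + 1) ≤ (K : ℝ) ^ 2 := by
    have h1 : (2 : ℝ) ^ (Nat.log 2 K) ≤ K := by exact_mod_cast Nat.pow_log_le_self 2 (by omega : K ≠ 0)
    rw [pow_succ, sq]
    exact mul_le_mul h1 hK2' (by norm_num) hK0.le
  have hb2 : (2 : ℝ) ^ b ≤ (K : ℝ) ^ c := by
    have h1 : (2 : ℝ) ^ (Nat.log 2 (4 * W + 4)) ≤ 4 * W + 4 := by exact_mod_cast Nat.pow_log_le_self 2 (by omega : 4 * W + 4 ≠ 0)
    rw [hb, pow_add, pow_succ]
    have h2 : (2 : ℝ) ^ (Nat.log 2 (4 * W + 4)) * 2 ≤ 2 ^ 5 * (K * (K : ℝ) ^ (3 * d)) := by linarith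
    have h3 : (2 : ℝ) ^ (Nat.log 2 (4 * W + 4)) * 2 * 2 ^ (Nat.log 2 K + 1) ≤ ((K : ℝ) ^ 5 * (K * (K : ℝ) ^ (3 * d))) * (K : ℝ) ^ 2 := by
      apply mul_le_mul _ hlog2 (by positivity) (by positivity)
      exact h2.trans (mul_le_mul_of_nonneg_right (h2n 5) (by positivity))
    refine h3.trans (le_of_eq ?_)
    rw [hc]
    ring
  obtain ⟨L, hL⟩ : ∃ L, L = lev s (Nat.log 2 K + 1) b := ⟨_, rfl⟩
  have hL0 : L 0 = Nat.log 2 K + 1 := by rw [hL]; rfl
  have hLs : ∀ i : Fin s, L i.succ = b := fun i => by rw [hL]; rfl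
  have hprod : ∏ i, (2 : ℝ) ^ L i = 2 ^ (Nat.log 2 K + 1) * (2 ^ b) ^ s := by
    rw [Fin.prod_univ_succ, hL0]
    congr 1
    rw [prod_congr rfl (fun i _ => by rw [hLs i]), prod_const, card_univ, Fintype.card_fin]
  obtain ⟨σ, hσ⟩ : ∃ σ : ℝ, σ = 2 ^ d * ∏ i, (2 : ℝ) ^ L i := ⟨_, rfl⟩
  have hσ1 : (K : ℝ) ≤ σ := by
    have h1 : (K : ℝ) ≤ 2 ^ (Nat.log 2 K + 1) := by exact_mod_cast hlog1.le
    have h2 : (1 : ℝ) ≤ (2 ^ b) ^ s := one_le_pow₀ (one_le_pow₀ (by norm_num))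
    have h3 : (1 : ℝ) ≤ 2 ^ d := one_le_pow₀ (by norm_num)
    rw [hσ, hprod]
    calc (K : ℝ) = 1 * (K * 1) := by ring
      _ ≤ 2 ^ d * (2 ^ (Nat.log 2 K + 1) * (2 ^ b) ^ s) := by
        apply mul_le_mul h3 _ (by positivity) (by positivity)
        exact mul_le_mul h1 h2 (by norm_num) (by positivity)
  have hσ2 : (K : ℝ) ≤ σ ^ 2 := by
    rw [sq]
    calc (K : ℝ) = K * 1 := by ring
      _ ≤ σ * σ := mul_le_mul hσ1 (hK1.trans hσ1) (by norm_num) (hK0.le.trans hσ1)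
  have hσ3 : σ ≤ (K : ℝ) ^ (d + 2 + c * s) := by
    rw [hσ, hprod]
    have h1 : ((2 : ℝ) ^ b) ^ s ≤ (K : ℝ) ^ (c * s) := by
      rw [pow_mul]
      exact pow_le_pow_left₀ (by positivity) hb2 s
    calc (2 : ℝ) ^ d * (2 ^ (Nat.log 2 K + 1) * (2 ^ b) ^ s) ≤ K ^ d * (K ^ 2 * K ^ (c * s)) := by
          apply mul_le_mul (h2n d) _ (by positivity) (by positivity)
          exact mul_le_mul hlog2 h1 (by positivity) (by positivity)
      _ = (K : ℝ) ^ (d + 2 + c * s) := by rw [pow_add, pow_add]; ring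
  refine ⟨b, σ, by rw [← hW]; exact hb1, hbK, by rw [hσ, hL], hσ2, ?_, ?_⟩
  · intro N hN
    have h1 : ((K ^ (K₀ + s + 2 + (4 + 12 * s + d + 2 + c * s)) : ℕ) : ℝ) ≤ N := by exact_mod_cast hN
    refine le_trans ?_ h1
    have h2 : (pr (K + s) : ℝ) ^ (2 * 2 * s) ≤ (K : ℝ) ^ (12 * s) := by
      have e : (K : ℝ) ^ (12 * s) = ((K : ℝ) ^ 3) ^ (2 * 2 * s) := by
        rw [← pow_mul]
        congr 1
        ring
      rw [e]
      exact pow_le_pow_left₀ (by positivity) hp _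
    have h3 : (K : ℝ) ^ (2 * 2) * (pr (K + s) : ℝ) ^ (2 * 2 * s) * σ ≤ (K : ℝ) ^ (4 + 12 * s + d + 2 + c * s) := by
      calc (K : ℝ) ^ (2 * 2) * (pr (K + s) : ℝ) ^ (2 * 2 * s) * σ ≤ (K : ℝ) ^ (2 * 2) * (K : ℝ) ^ (12 * s) * (K : ℝ) ^ (d + 2 + c * s) := by
            apply mul_le_mul _ hσ3 (by linarith) (by positivity)
            exact mul_le_mul_of_nonneg_left h2 (by positivity)
        _ = _ := by
            rw [← pow_add, ← pow_add]
            congr 1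
            ring
    refine h3.trans ?_
    push_cast
    exact pow_le_pow_right₀ hK1 (by omega)
  · rw [← hL]
    have hx0 : (0 : ℝ) < (K : ℝ) ^ (1 / (q : ℝ)) := Real.rpow_pos_of_pos hK0 _
    have hl2 : (1 / 2 : ℝ) < Real.log 2 := by have := Real.log_two_gt_d9; linarith
    have hlK := log_le_rpow q (by omega) K hK1'
    have hlK0 : 0 ≤ Real.log K := Real.log_nonneg hK1
    have hlev : ∀ a : ℕ, (2 : ℝ) ^ a ≤ (K : ℝ) ^ c → (a : ℝ) ≤ c' * (K : ℝ) ^ (1 / (q : ℝ)) := by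
      intro a ha
      have h1 := Real.log_le_log (by positivity) ha
      rw [Real.log_pow, Real.log_pow] at h1
      have h2 : (0 : ℝ) ≤ a := Nat.cast_nonneg a
      have h3 : (0 : ℝ) ≤ c := Nat.cast_nonneg c
      have h4 : (a : ℝ) ≤ 2 * (c * Real.log K) := by nlinarith
      refine h4.trans ?_
      have h5 := mul_le_mul_of_nonneg_left hlK h3
      rw [hc']
      linarith
    have h1 : ∀ i, (L i : ℝ) ≤ c' * (K : ℝ) ^ (1 / (q : ℝ)) := by
      intro i
      refine Fin.cases ?_ (fun i => ?_) i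
      · apply hlev
        rw [hL0]
        exact hlog2.trans (pow_le_pow_right₀ hK1 (by omega))
      · rw [hLs]
        exact hlev b hb2
    calc ∏ i, (L i : ℝ) ≤ ∏ _i : Fin (s + 1), (c' * (K : ℝ) ^ (1 / (q : ℝ))) := prod_le_prod (fun i _ => Nat.cast_nonneg _) fun i _ => h1 i
      _ = _ := by
          rw [prod_const, card_univ, Fintype.card_fin, mul_pow]
          congr 1
          rw [← Real.rpow_natCast, ← Real.rpow_mul hK0.le, hq]
          congr 1
          push_cast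
          field_simp

/-- the fine levels -/
noncomputable def Zf {m' : ℕ} (φ : Fin m' → ℕ → (Fin d → ℤ) → ℕ) (L : Fin m' → ℕ) (Adm : Fin m' → ℕ → Prop) (r K m : ℕ) (t : Fin d → ℤ) : ℝ :=
  ∑ j ∈ (Fintype.piFinset (fun i => range (L i))).filter (fun j => ∃ i, j i + m < L i), Real.sqrt (Real.sqrt (Qj φ L Adm r K j t))

lemma Zf_nonneg {m' : ℕ} (φ : Fin m' → ℕ → (Fin d → ℤ) → ℕ) (L : Fin m' → ℕ) (Adm : Fin m' → ℕ → Prop) (r K m : ℕ) (t : Fin d → ℤ) :
    0 ≤ Zf φ L Adm r K m t := sum_nonneg fun _ _ => Real.sqrt_nonneg _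

/-- the level sum over the fine levels -/
lemma fine_sum {m' : ℕ} (L : Fin m' → ℕ) (ρ : ℝ) (h0 : 0 < ρ) (h1 : ρ < 1) (m : ℕ) :
    ∑ j ∈ (Fintype.piFinset (fun i => range (L i))).filter (fun j => ∃ i, j i + m < L i), ∏ i, (ρ ^ 2) ^ (L i - j i) ≤
      ρ ^ m * (1 / (1 - ρ)) ^ m' := by
  have h2 : ∀ j ∈ (Fintype.piFinset (fun i => range (L i))).filter (fun j => ∃ i, j i + m < L i),
      ∏ i, (ρ ^ 2) ^ (L i - j i) ≤ ρ ^ m * ∏ i, ρ ^ (L i - j i) := by
    intro j hj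
    rw [mem_filter] at hj
    obtain ⟨i₀, hi₀⟩ := hj.2
    have e : ∏ i, (ρ ^ 2) ^ (L i - j i) = (∏ i, ρ ^ (L i - j i)) * ∏ i, ρ ^ (L i - j i) := by
      rw [← prod_mul_distrib]
      refine prod_congr rfl fun i _ => ?_
      rw [← pow_mul, ← pow_add]
      congr 1
      ring
    rw [e]
    apply mul_le_mul_of_nonneg_right _ (prod_nonneg fun i _ => by positivity)
    have h3 : ∏ i, ρ ^ (L i - j i) ≤ ρ ^ (L i₀ - j i₀) := by
      rw [← mul_prod_erase univ (fun i => ρ ^ (L i - j i)) (mem_univ i₀)]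
      have h4 : ∏ i ∈ univ.erase i₀, ρ ^ (L i - j i) ≤ 1 := prod_le_one (fun i _ => by positivity) fun i _ => pow_le_one₀ h0.le h1.le
      have h5 : 0 < ρ ^ (L i₀ - j i₀) := by positivity
      nlinarith
    exact h3.trans (pow_le_pow_of_le_one h0.le h1.le (by omega))
  refine (sum_le_sum h2).trans ?_
  rw [← mul_sum]
  apply mul_le_mul_of_nonneg_left _ (by positivity)
  have h3 : ∑ j ∈ (Fintype.piFinset (fun i => range (L i))).filter (fun j => ∃ i, j i + m < L i), ∏ i, ρ ^ (L i - j i) ≤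
      ∑ j ∈ Fintype.piFinset (fun i => range (L i)), ∏ i, ρ ^ (L i - j i) :=
    sum_le_sum_of_subset_of_nonneg (filter_subset _ _) fun j _ _ => prod_nonneg fun i _ => by positivity
  refine h3.trans ?_
  have h4 := Finset.prod_univ_sum (fun i => range (L i)) (fun i j => ρ ^ (L i - j))
  rw [← h4]
  calc ∏ i, ∑ j ∈ range (L i), ρ ^ (L i - j) ≤ ∏ _i : Fin m', (1 / (1 - ρ)) :=
        prod_le_prod (fun i _ => sum_nonneg fun j _ => by positivity) fun i _ => geo_sum ρ h0 h1 (L i)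
    _ = _ := by rw [prod_const, card_univ, Fintype.card_fin]

/-- the index set of the coarse cells -/
abbrev Ix (s m : ℕ) : Type := (Fin (s + 1) → Fin m) × (Fin (s + 1) → Fin (2 ^ m))

/-- the levels of a coarse cell -/
def lv {s m : ℕ} (L : Fin (s + 1) → ℕ) (a : Fin (s + 1) → Fin m) (i : Fin (s + 1)) : ℕ := L i - 1 - a i

/-- the coarse cells -/
def cc {s m : ℕ} (φ : Fin (s + 1) → ℕ → (Fin d → ℤ) → ℕ) (L : Fin (s + 1) → ℕ) (x : Ix s m) : ℕ → (Fin d → ℤ) → ℝ :=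
  cel φ (lv L x.1) (fun i => (x.2 i : ℕ))

open Classical in
/-- the coefficients -/
noncomputable def al {s m : ℕ} (L T : Fin (s + 1) → ℕ) (x : Ix s m) : ℝ :=
  if ∀ i, T i / 2 ^ (lv L x.1 i) % 2 = 1 ∧ T i / 2 ^ (lv L x.1 i) = x.2 i + 1 then 1 else 0

lemma al_nonneg {s m : ℕ} (L T : Fin (s + 1) → ℕ) (x : Ix s m) : 0 ≤ al L T x := by
  unfold al
  split_ifs <;> norm_num

lemma al_le {s m : ℕ} (L T : Fin (s + 1) → ℕ) (x : Ix s m) : al L T x ≤ 1 := by
  unfold al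
  split_ifs <;> norm_num

lemma low_cut {s m : ℕ} (φ : Fin (s + 1) → ℕ → (Fin d → ℤ) → ℕ) (L : Fin (s + 1) → ℕ) (Adm : Fin (s + 1) → ℕ → Prop) (r K : ℕ)
    (hL : ∀ i, m ≤ L i) (hφ : ∀ i k t, k < K → φ i k t < 2 ^ L i) (T : Fin (s + 1) → ℕ) (hT : ∀ i, T i < 2 ^ L i) (hA : ∀ i, Adm i (T i))
    (t : Fin d → ℤ) : |dev (low φ T) r K t - ∑ x : Ix s m, al L T x * dev (cc φ L x) r K t| ≤ Zf φ L Adm r K m t := by
  classical
  rw [dev_sum (Fintype.piFinset (fun i => range (L i))) (fun j => if ∀ i, T i / 2 ^ (j i) % 2 = 1 then (1 : ℝ) else 0)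
    (fun j => cel φ j (fun i => T i / 2 ^ (j i) - 1)) (low φ T) r K
    (fun k hk t => low_eq φ L T k t (fun i => hφ i k t hk) hT) t]
  obtain ⟨f, hf⟩ : ∃ f : (Fin (s + 1) → ℕ) → ℝ, f = fun j => (if ∀ i, T i / 2 ^ (j i) % 2 = 1 then (1 : ℝ) else 0) *
    dev (cel φ j (fun i => T i / 2 ^ (j i) - 1)) r K t := ⟨_, rfl⟩
  have hfe : ∑ j ∈ Fintype.piFinset (fun i => range (L i)), (if ∀ i, T i / 2 ^ (j i) % 2 = 1 then (1 : ℝ) else 0) *
    dev (cel φ j (fun i => T i / 2 ^ (j i) - 1)) r K t = ∑ j ∈ Fintype.piFinset (fun i => range (L i)), f j := by rw [hf]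
  rw [hfe, ← sum_filter_add_sum_filter_not _ (fun j => ∃ i, j i + m < L i)]
  -- the coarse levels
  have hcoarse : ∑ j ∈ (Fintype.piFinset (fun i => range (L i))).filter (fun j => ¬ ∃ i, j i + m < L i), f j =
      ∑ x : Ix s m, al L T x * dev (cc φ L x) r K t := by
    have h1 : ∑ j ∈ (Fintype.piFinset (fun i => range (L i))).filter (fun j => ¬ ∃ i, j i + m < L i), f j =
        ∑ a : Fin (s + 1) → Fin m, f (lv L a) := by
      symm
      apply sum_bij (fun a _ => lv L a)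
      · intro a _
        rw [mem_filter, Fintype.mem_piFinset]
        constructor
        · intro i
          rw [mem_range]
          have := hL i
          have := (a i).2
          show L i - 1 - a i < L i
          omega
        · rintro ⟨i, hi⟩
          have hi' : L i - 1 - a i + m < L i := hi
          have := (a i).2
          omega
      · intro a _ a' _ h
        funext i
        have h2 : L i - 1 - a i = L i - 1 - a' i := congrFun h i
        have := hL i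
        have := (a i).2
        have := (a' i).2
        apply Fin.ext
        omega
      · intro j hj
        rw [mem_filter, Fintype.mem_piFinset] at hj
        obtain ⟨hj1, hj2⟩ := hj
        push Not at hj2
        refine ⟨fun i => ⟨L i - 1 - j i, ?_⟩, mem_univ _, ?_⟩
        · have := mem_range.1 (hj1 i)
          have := hj2 i
          omega
        · funext i
          have := mem_range.1 (hj1 i)
          show L i - 1 - (L i - 1 - j i) = j i
          omega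
      · intro a _
        rfl
    rw [h1, Fintype.sum_prod_type]
    refine sum_congr rfl fun a _ => ?_
    rw [hf]
    show (if ∀ i, T i / 2 ^ (lv L a i) % 2 = 1 then (1 : ℝ) else 0) * dev (cel φ (lv L a) (fun i => T i / 2 ^ (lv L a i) - 1)) r K t = _
    by_cases h2 : ∀ i, T i / 2 ^ (lv L a i) % 2 = 1
    · rw [if_pos h2, one_mul]
      have h3 : ∀ i, T i / 2 ^ (lv L a i) - 1 < 2 ^ m := by
        intro i
        have h4 : T i / 2 ^ (lv L a i) < 2 ^ m := by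
          rw [Nat.div_lt_iff_lt_mul (by positivity), ← pow_add]
          refine lt_of_lt_of_le (hT i) (Nat.pow_le_pow_right (by norm_num) ?_)
          have := (a i).2
          have := hL i
          show L i ≤ m + (L i - 1 - a i)
          omega
        exact lt_of_le_of_lt (Nat.sub_le _ _) h4
      have e : (fun i => T i / 2 ^ (lv L a i) - 1) = fun i => ((⟨T i / 2 ^ (lv L a i) - 1, h3 i⟩ : Fin (2 ^ m)) : ℕ) := rfl
      rw [sum_eq_single (fun i => (⟨T i / 2 ^ (lv L a i) - 1, h3 i⟩ : Fin (2 ^ m)))]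
      · unfold al
        rw [if_pos, one_mul]
        · rfl
        · intro i
          refine ⟨h2 i, ?_⟩
          have h5 := h2 i
          show T i / 2 ^ (lv L a i) = (T i / 2 ^ (lv L a i) - 1) + 1
          generalize T i / 2 ^ (lv L a i) = y at *
          omega
      · intro c _ hc
        unfold al
        rw [if_neg, zero_mul]
        intro h5
        apply hc
        funext i
        apply Fin.ext
        have h6 : T i / 2 ^ (lv L a i) = c i + 1 := (h5 i).2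
        show (c i : ℕ) = T i / 2 ^ (lv L a i) - 1
        omega
      · intro h5
        exact absurd (mem_univ _) h5
    · rw [if_neg h2, zero_mul]
      symm
      apply sum_eq_zero
      intro c _
      unfold al
      rw [if_neg, zero_mul]
      intro h5
      exact h2 fun i => (h5 i).1
  rw [hcoarse, add_sub_cancel_right]
  unfold Zf
  refine (abs_sum_le_sum_abs _ _).trans (sum_le_sum fun j _ => ?_)
  rw [hf]
  show |(if ∀ i, T i / 2 ^ (j i) % 2 = 1 then (1 : ℝ) else 0) * dev (cel φ j (fun i => T i / 2 ^ (j i) - 1)) r K t| ≤ _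
  by_cases h : ∀ i, T i / 2 ^ (j i) % 2 = 1
  · rw [if_pos h, one_mul, ← s4]
    apply Real.sqrt_le_sqrt
    apply Real.sqrt_le_sqrt
    unfold Qj
    have hc : (fun i => T i / 2 ^ (j i) - 1) ∈ cells L Adm j := by
      unfold cells
      rw [mem_filter, Fintype.mem_piFinset]
      constructor
      · intro i
        rw [mem_range]
        have h1 := hT i
        have h2 : T i / 2 ^ (j i) ≤ T i := Nat.div_le_self _ _
        show T i / 2 ^ (j i) - 1 < 2 ^ L i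
        omega
      · intro i
        refine ⟨T i, hA i, ?_⟩
        have h1 := h i
        show T i / 2 ^ (j i) = T i / 2 ^ (j i) - 1 + 1
        generalize T i / 2 ^ (j i) = y at *
        omega
    exact single_le_sum (f := fun c => dev (cel φ j c) r K t ^ 4) (fun c _ => by
      have e : dev (cel φ j c) r K t ^ 4 = (dev (cel φ j c) r K t ^ 2) ^ 2 := by ring
      show 0 ≤ dev (cel φ j c) r K t ^ 4
      rw [e]
      exact sq_nonneg _) hc
  · rw [if_neg h, zero_mul, abs_zero]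
    exact Real.sqrt_nonneg _

end Pool.Agent.K4H4.UL
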