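import Pool.Agent.K4H4.UL.Inv

set_option autoImplicit false

/-! The law over a box of parameters and the law for independent residues. -/

namespace Pool.Agent.K4H4.UL
open Finset
open Pool.Agent.K4H4.CL
open Pool.Agent.K4H4.SB
open Pool.Agent.TH894.NE (box mem_box card_box Per mean two_mod mean_mono mean_const mean_add mean_mul)

variable {d : ℕ}

open Classical in
/-- the number of the windows of a sequence in a box -/
noncomputable def cseq (s K : ℕ) (x : ℕ → ℝ) (J : Fin s → Set ℝ) : ℝ :=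
  ∑ k ∈ range K, ∏ i : Fin s, (if x (k + i) ∈ J i then (1 : ℝ) else 0)

lemma cnt_eq (θ : ℕ → (Fin d → ℤ) → ℝ) (s K : ℕ) (J : Fin s → Set ℝ) (t : Fin d → ℤ) :
    cnt θ s K J t = cseq s K (fun l => θ l t) J := by
  unfold cnt cseq
  refine sum_congr rfl fun k _ => prod_congr rfl fun i _ => ?_
  unfold ival
  rfl

lemma cseq_congr (s K : ℕ) (x y : ℕ → ℝ) (h : ∀ l, l < K + s → x l = y l) (J : Fin s → Set ℝ) : cseq s K x J = cseq s K y J := by
  unfold cseq
  refine sum_congr rfl fun k hk => prod_congr rfl fun i _ => ?_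
  rw [mem_range] at hk
  have := i.isLt
  rw [h (k + i) (by omega)]

/-- the process for a sequence -/
noncomputable def Ws (s K : ℕ) {𝒯 : Type} (T : 𝒯 → ℕ × (Fin s → Set ℝ)) (x : ℕ → ℝ) (p : 𝒯) : ℝ :=
  cseq s (T p).1 x (T p).2 / Real.sqrt K

lemma W_eq (θ : ℕ → (Fin d → ℤ) → ℝ) (s K : ℕ) {𝒯 : Type} (T : 𝒯 → ℕ × (Fin s → Set ℝ)) (t : Fin d → ℤ) :
    W θ s K T t = Ws s K T (fun l => θ l t) := by
  funext p
  unfold W Ws
  rw [cnt_eq]

lemma Ws_congr (s K : ℕ) {𝒯 : Type} (T : 𝒯 → ℕ × (Fin s → Set ℝ)) (h𝒯 : ∀ p, (T p).1 ≤ K) (x y : ℕ → ℝ)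
    (h : ∀ l, l < K + s → x l = y l) : Ws s K T x = Ws s K T y := by
  funext p
  unfold Ws
  rw [cseq_congr s (T p).1 x y (fun l hl => h l (by have := h𝒯 p; omega)) (T p).2]

/-- the residues modulo the first `L` primes, chosen independently -/
noncomputable def res (d L : ℕ) : Finset (Fin L → Fin d → ℕ) := Fintype.piFinset (fun l : Fin L => par (fun _ : Fin d => pr l))

/-- the sequence belonging to a choice of residues -/
noncomputable def sq (θ : ℕ → (Fin d → ℤ) → ℝ) (L : ℕ) (r : Fin L → Fin d → ℕ) (l : ℕ) : ℝ :=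
  if h : l < L then θ l (fun i => (r ⟨l, h⟩ i : ℤ)) else 0

lemma card_res (d L : ℕ) : (res d L).card = PI (range L) ^ d := by
  unfold res
  rw [Fintype.card_piFinset]
  have h : ∀ l : Fin L, (par (fun _ : Fin d => pr l)).card = pr l ^ d := by
    intro l
    rw [card_par, prod_const, card_univ, Fintype.card_fin]
  rw [prod_congr rfl fun l _ => h l, prod_pow]
  congr 1
  unfold PI
  exact (Finset.prod_range (fun l => pr l)).symm

lemma crt_sum (θ : ℕ → (Fin d → ℤ) → ℝ) (hθ : PerV θ) (L : ℕ) (Φ : (ℕ → ℝ) → ℝ) (hΦ : ∀ x y : ℕ → ℝ, (∀ l, l < L → x l = y l) → Φ x = Φ y) :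
    ∑ n ∈ par (fun _ : Fin d => PI (range L)), Φ (fun l => θ l (fun i => (n i : ℤ))) = ∑ r ∈ res d L, Φ (sq θ L r) := by
  classical
  obtain ⟨e, he⟩ : ∃ e : (Fin d → ℕ) → (Fin L → Fin d → ℕ), e = fun (n : Fin d → ℕ) (l : Fin L) (i : Fin d) => n i % pr l := ⟨_, rfl⟩
  have hinj : Set.InjOn e (par (fun _ : Fin d => PI (range L)) : Set (Fin d → ℕ)) := by
    intro n hn n' hn' h
    rw [mem_coe] at hn hn'
    unfold par at hn hn'
    rw [Fintype.mem_piFinset] at hn hn'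
    funext i
    have h1 : n i < PI (range L) := mem_range.1 (hn i)
    have h2 : n' i < PI (range L) := mem_range.1 (hn' i)
    have h3 : ((PI (range L) : ℕ) : ℤ) ∣ (n i : ℤ) - (n' i : ℤ) := by
      unfold PI
      push_cast
      apply Finset.prod_dvd_of_coprime
      · intro l _ l' _ hll
        show IsCoprime ((pr l : ℕ) : ℤ) ((pr l' : ℕ) : ℤ)
        rw [Nat.isCoprime_iff_coprime, Nat.coprime_primes (pr_prime l) (pr_prime l')]
        exact fun h => hll (pr_inj h)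
      · intro l hl
        have h4 : e n ⟨l, mem_range.1 hl⟩ i = e n' ⟨l, mem_range.1 hl⟩ i := by rw [h]
        rw [he] at h4
        have h5 : n i % pr l = n' i % pr l := h4
        have h6 : n' i ≡ n i [MOD pr l] := h5.symm
        exact (Nat.modEq_iff_dvd.1 h6)
    have h7 : |(n i : ℤ) - (n' i : ℤ)| < (PI (range L) : ℕ) := by
      rw [abs_lt]
      constructor <;> omega
    have h8 := Int.eq_zero_of_abs_lt_dvd h3 h7
    omega
  have himg : (par (fun _ : Fin d => PI (range L))).image e = res d L := by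
    apply Finset.eq_of_subset_of_card_le
    · intro r hr
      obtain ⟨n, _, rfl⟩ := mem_image.1 hr
      unfold res par
      rw [Fintype.mem_piFinset]
      intro l
      rw [Fintype.mem_piFinset]
      intro i
      rw [he, mem_range]
      exact Nat.mod_lt _ (pr_prime l).pos
    · rw [card_res, card_image_of_injOn hinj, card_par, prod_const, card_univ, Fintype.card_fin]
  rw [← himg, sum_image hinj]
  refine sum_congr rfl fun n _ => ?_
  apply hΦ
  intro l hl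
  unfold sq
  rw [dif_pos hl]
  apply hθ
  intro i
  rw [he]
  show (pr l : ℤ) ∣ (n i : ℤ) - ((n i % pr l : ℕ) : ℤ)
  push_cast
  exact Int.dvd_self_sub_emod

lemma pow_le_PI (C : ℕ) : ∃ K₀ : ℕ, ∀ K : ℕ, K₀ ≤ K → ∀ L : ℕ, K ≤ L → K ^ C ≤ PI (range L) := by
  have h1 := tendsto_pow_const_div_const_pow_of_one_lt C (show (1 : ℝ) < 2 by norm_num)
  obtain ⟨K₀, hK₀⟩ := Filter.eventually_atTop.1 (h1.eventually (gt_mem_nhds (show (0 : ℝ) < 1 by norm_num)))
  refine ⟨K₀, fun K hK L hL => ?_⟩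
  have h2 := hK₀ K hK
  rw [div_lt_one (by positivity)] at h2
  have h3 : K ^ C < 2 ^ K := by exact_mod_cast h2
  have h4 : 2 ^ L ≤ PI (range L) := by
    unfold PI
    calc 2 ^ L = ∏ _l ∈ range L, 2 := by rw [prod_const, card_range]
      _ ≤ ∏ l ∈ range L, pr l := prod_le_prod' fun l _ => (pr_prime l).two_le
  exact (h3.le.trans (Nat.pow_le_pow_right (by norm_num) hL)).trans h4

/-- The average over a box of parameters and the average over independent residues. -/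
theorem law (d s : ℕ) (hs : 1 ≤ s) (ε : ℝ) (hε : 0 < ε) : ∃ C : ℕ, ∀ θ : ℕ → (Fin d → ℤ) → ℝ, PerV θ →
    ∀ (K : ℕ) (N : Fin d → ℕ) (u : Fin d → ℤ), C ≤ K → (∀ i, K ^ C ≤ N i) →
    ∀ (𝒯 : Type) (T : 𝒯 → ℕ × (Fin s → Set ℝ)), (∀ p, (T p).1 ≤ K ∧ ∀ i, ((T p).2 i).OrdConnected) →
    ∀ Ψ : (𝒯 → ℝ) → ℝ, (∀ x, |Ψ x| ≤ 1) → (∀ (x y : 𝒯 → ℝ) (δ : ℝ), (∀ p, |x p - y p| ≤ δ) → |Ψ x - Ψ y| ≤ δ) →
      |(∑ n ∈ par N, Ψ (Ws s K T (fun l => θ l (fun i => u i + n i)))) / ((par N).card : ℝ) -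
        (∑ r ∈ res d (K + s), Ψ (Ws s K T (sq θ (K + s) r))) / ((res d (K + s)).card : ℝ)| ≤ ε := by
  obtain ⟨C, hC⟩ := universal d s hs ε hε
  obtain ⟨K₀, hK₀⟩ := pow_le_PI C
  refine ⟨C + K₀ + 1, fun θ hθ K N u hK hN 𝒯 T h𝒯 Ψ hΨ1 hΨ => ?_⟩
  have h1 := hC θ hθ K N (fun _ => PI (range (K + s))) u (fun _ => 0) (by omega)
    (fun i => (Nat.pow_le_pow_right (by omega) (by omega)).trans (hN i)) (fun _ => hK₀ K (by omega) (K + s) (by omega)) 𝒯 T h𝒯 Ψ hΨ1 hΨ
  have e1 : av N u (fun t => Ψ (W θ s K T t)) = (∑ n ∈ par N, Ψ (Ws s K T (fun l => θ l (fun i => u i + n i)))) / ((par N).card : ℝ) := by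
    unfold av
    rw [card_par]
    push_cast
    simp only [W_eq]
  have e2 : av (fun _ => PI (range (K + s))) (fun _ => 0) (fun t => Ψ (W θ s K T t)) =
      (∑ r ∈ res d (K + s), Ψ (Ws s K T (sq θ (K + s) r))) / ((res d (K + s)).card : ℝ) := by
    unfold av
    rw [card_res, prod_const, card_univ, Fintype.card_fin]
    push_cast
    simp only [W_eq, zero_add]
    rw [crt_sum θ hθ (K + s) (fun x => Ψ (Ws s K T x)) (fun x y h => by
      show Ψ _ = Ψ _
      rw [Ws_congr s K T (fun p => (h𝒯 p).1) x y h])]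
  rw [e1, e2] at h1
  exact h1

open Classical in
/-- the Levy distance -/
lemma levy {ι₁ ι₂ : Type} (A : Finset ι₁) (B : Finset ι₂) (hA : A.Nonempty) (hB : B.Nonempty) (S : ι₁ → ℝ) (S' : ι₂ → ℝ) (ε : ℝ) (hε : 0 < ε) (hε1 : ε ≤ 1)
    (h : ∀ ψ : ℝ → ℝ, (∀ x, |ψ x| ≤ 1) → (∀ x y, |ψ x - ψ y| ≤ |x - y|) →
      |(∑ n ∈ A, ψ (S n)) / (A.card : ℝ) - (∑ n ∈ B, ψ (S' n)) / (B.card : ℝ)| ≤ ε ^ 2) (x : ℝ) :
    ((A.filter (fun n => S n ≤ x)).card : ℝ) / A.card ≤ ((B.filter (fun n => S' n ≤ x + ε)).card : ℝ) / B.card + ε := by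
  have hA0 : (0 : ℝ) < A.card := by exact_mod_cast card_pos.2 hA
  have hB0 : (0 : ℝ) < B.card := by exact_mod_cast card_pos.2 hB
  obtain ⟨ψ, hψ⟩ : ∃ ψ : ℝ → ℝ, ψ = fun y => max 0 (min ε (x + ε - y)) := ⟨_, rfl⟩
  have h0 : ∀ y, 0 ≤ ψ y := fun y => by rw [hψ]; exact le_max_left _ _
  have h1 : ∀ y, ψ y ≤ ε := fun y => by rw [hψ]; exact max_le hε.le (min_le_left _ _)
  have h2 := h ψ (fun y => by rw [abs_of_nonneg (h0 y)]; exact (h1 y).trans hε1) (fun y z => by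
    rw [hψ]
    refine (abs_max_sub_max_le_max _ _ _ _).trans ?_
    rw [sub_self, abs_zero]
    apply max_le (abs_nonneg _)
    refine (abs_min_sub_min_le_max _ _ _ _).trans ?_
    rw [sub_self, abs_zero]
    apply max_le (abs_nonneg _)
    rw [show x + ε - y - (x + ε - z) = z - y by ring, abs_sub_comm])
  have h3 : ε * ((A.filter (fun n => S n ≤ x)).card : ℝ) ≤ ∑ n ∈ A, ψ (S n) := by
    rw [card_filter]
    push_cast
    rw [mul_sum]
    refine sum_le_sum fun n _ => ?_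
    split_ifs with hx
    · rw [mul_one, hψ]
      exact le_max_of_le_right (le_min le_rfl (by linarith))
    · rw [mul_zero]
      exact h0 _
  have h4 : ∑ n ∈ B, ψ (S' n) ≤ ε * ((B.filter (fun n => S' n ≤ x + ε)).card : ℝ) := by
    rw [card_filter]
    push_cast
    rw [mul_sum]
    refine sum_le_sum fun n _ => ?_
    split_ifs with hx
    · rw [mul_one]
      exact h1 _
    · rw [mul_zero, hψ]
      apply max_le le_rfl
      exact (min_le_right _ _).trans (by linarith)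
  have h5 := (abs_le.1 h2).2
  have h6 : ε * ((A.filter (fun n => S n ≤ x)).card : ℝ) / A.card ≤ (∑ n ∈ A, ψ (S n)) / A.card := div_le_div_of_nonneg_right h3 hA0.le
  have h7 : (∑ n ∈ B, ψ (S' n)) / B.card ≤ ε * ((B.filter (fun n => S' n ≤ x + ε)).card : ℝ) / B.card := div_le_div_of_nonneg_right h4 hB0.le
  have h8 : ε * (((A.filter (fun n => S n ≤ x)).card : ℝ) / A.card) ≤ ε * (((B.filter (fun n => S' n ≤ x + ε)).card : ℝ) / B.card + ε) := by
    rw [mul_add, ← mul_div_assoc, ← mul_div_assoc]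
    linarith
  exact le_of_mul_le_mul_left h8 hε

end Pool.Agent.K4H4.UL
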