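import Pool.Agent.K4H4.UL.Cut

set_option autoImplicit false

/-! The law of all suprema over boxes is the same over all boxes of parameters. -/

namespace Pool.Agent.K4H4.UL
open Finset
open Pool.Agent.K4H4.CL
open Pool.Agent.K4H4.SB
open Pool.Agent.TH894.NE (box mem_box card_box Per mean two_mod mean_mono mean_const mean_add mean_mul)

variable {d : ℕ}

lemma sup_close {ι : Type} (f g : ι → ℝ) (hf : BddAbove (Set.range f)) (hg : BddAbove (Set.range g)) (δ : ℝ) (hδ : 0 ≤ δ)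
    (h : ∀ i, |f i - g i| ≤ δ) : |(⨆ i, f i) - ⨆ i, g i| ≤ δ := by
  rcases isEmpty_or_nonempty ι with hι | hι
  · rw [Real.iSup_of_isEmpty, Real.iSup_of_isEmpty, sub_self, abs_zero]
    exact hδ
  · have h1 : (⨆ i, f i) ≤ (⨆ i, g i) + δ := by
      apply ciSup_le
      intro i
      have h2 := (abs_le.1 (h i)).2
      have h3 := le_ciSup hg i
      linarith
    have h2 : (⨆ i, g i) ≤ (⨆ i, f i) + δ := by
      apply ciSup_le
      intro i
      have h2 := (abs_le.1 (h i)).1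
      have h3 := le_ciSup hf i
      linarith
    rw [abs_le]
    constructor <;> linarith

lemma adm_lt (θ : ℕ → (Fin d → ℤ) → ℝ) (s K b : ℕ) (i : Fin (s + 1)) (T : ℕ) (h : adm θ s K b i T) :
    T < 2 ^ (lev s (Nat.log 2 K + 1) b i) := by
  revert h
  refine Fin.cases ?_ (fun i => ?_) i
  · intro h
    have h' : T ≤ K := h
    show T < 2 ^ (Nat.log 2 K + 1)
    exact lt_of_le_of_lt h' (Nat.lt_pow_succ_log_self (by norm_num) K)
  · rintro ⟨v, hv⟩
    show T < 2 ^ b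
    rw [hv]
    exact rk_lt _ _ _ _

lemma ph_lt (θ : ℕ → (Fin d → ℤ) → ℝ) (s K b : ℕ) (i : Fin (s + 1)) (k : ℕ) (t : Fin d → ℤ) (hk : k < K) :
    ph θ s K b i k t < 2 ^ (lev s (Nat.log 2 K + 1) b i) := by
  refine Fin.cases ?_ (fun i => ?_) i
  · show k < 2 ^ (Nat.log 2 K + 1)
    exact hk.trans (Nat.lt_pow_succ_log_self (by norm_num) K)
  · show rk θ (K + s) b (θ (k + i) t) < 2 ^ b
    exact rk_lt _ _ _ _

lemma bx_low {θ : ℕ → (Fin d → ℤ) → ℝ} (hθ : PerV θ) (s K b : ℕ) (hb : 4 * (vals θ (K + s)).card ≤ 2 ^ b) (K' : ℕ) (h : K' ≤ K)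
    (J : Fin s → Set ℝ) (hJ : ∀ i, (J i).OrdConnected) : ∃ T : (Fin s → Bool) → Fin (s + 1) → ℕ, (∀ e i, adm θ s K b i (T e i)) ∧
    ∀ t, cnt θ s K' J t - ex θ s K' J = ∑ e : Fin s → Bool, (∏ i, (if e i then (1 : ℝ) else -1)) * dev (low (ph θ s K b) (T e)) s K t := by
  choose a b' hab hJ2 using fun i => ivl (vals θ (K + s)) (J i) (hJ i)
  refine ⟨fun e => Fin.cases K' (fun i => rk θ (K + s) b (if e i then b' i else a i)), fun e i => ?_, fun t => ?_⟩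
  · refine Fin.cases ?_ (fun i => ?_) i
    · exact h
    · exact ⟨_, rfl⟩
  · rw [← dev_bx hθ s K K' h J t]
    have h1 := dev_sum (Fintype.piFinset (fun _ : Fin s => (univ : Finset Bool))) (fun p => ∏ i, (if p i then (1 : ℝ) else -1))
      (fun p => orth θ s K' (fun i => if p i then b' i else a i)) (bx θ s K' J) s K (by
        intro k hk t
        unfold bx orth
        have e : ∏ i : Fin s, ival θ (fun x => x ∈ J i) (k + i) t =
            ∏ i : Fin s, ∑ e : Bool, (if e then (1 : ℝ) else -1) * ival θ (fun x => x < (if e then b' i else a i)) (k + i) t :=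
          prod_congr rfl fun i _ => ival_diff (vals θ (K + s)) (J i) (a i) (b' i) (hab i) (hJ2 i) (k + i) t (mem_vals hθ (by omega) t)
        rw [e, Finset.prod_univ_sum, mul_sum]
        refine sum_congr rfl fun p _ => ?_
        rw [prod_mul_distrib]
        ring) t
    rw [h1, Fintype.piFinset_univ]
    refine sum_congr rfl fun e _ => ?_
    congr 1
    exact dev_congr s K (fun k hk t => orth_eq hθ s K b hb K' _ k hk t) t

lemma box_cut {θ : ℕ → (Fin d → ℤ) → ℝ} (hθ : PerV θ) (s K b m : ℕ) (hb : 4 * (vals θ (K + s)).card ≤ 2 ^ b)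
    (hL : ∀ i, m ≤ lev s (Nat.log 2 K + 1) b i) (K' : ℕ) (h : K' ≤ K) (J : Fin s → Set ℝ) (hJ : ∀ i, (J i).OrdConnected) :
    ∃ γ : Ix s m → ℝ, (∀ x, |γ x| ≤ 2 ^ s) ∧ ∀ t, |cnt θ s K' J t - ex θ s K' J -
      ∑ x, γ x * dev (cc (ph θ s K b) (lev s (Nat.log 2 K + 1) b) x) s K t| ≤
        2 ^ s * Zf (ph θ s K b) (lev s (Nat.log 2 K + 1) b) (adm θ s K b) s K m t := by
  obtain ⟨T, hT, he⟩ := bx_low hθ s K b hb K' h J hJ
  obtain ⟨L, hLd⟩ : ∃ L, L = lev s (Nat.log 2 K + 1) b := ⟨_, rfl⟩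
  rw [← hLd] at hL ⊢
  have hcard : (Fintype.card (Fin s → Bool) : ℝ) = 2 ^ s := by
    rw [Fintype.card_fun, Fintype.card_bool, Fintype.card_fin]
    push_cast
    rfl
  have hsg : ∀ e : Fin s → Bool, |∏ i, (if e i then (1 : ℝ) else -1)| = 1 := by
    intro e
    rw [abs_prod]
    exact prod_eq_one fun i _ => by split_ifs <;> simp
  refine ⟨fun x => ∑ e : Fin s → Bool, (∏ i, (if e i then (1 : ℝ) else -1)) * al L (T e) x, fun x => ?_, fun t => ?_⟩
  · refine (abs_sum_le_sum_abs _ _).trans ?_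
    have h1 : ∀ e ∈ (univ : Finset (Fin s → Bool)), |(∏ i, (if e i then (1 : ℝ) else -1)) * al L (T e) x| ≤ 1 := by
      intro e _
      rw [abs_mul, hsg, one_mul, abs_of_nonneg (al_nonneg _ _ _)]
      exact al_le _ _ _
    refine (sum_le_sum h1).trans (le_of_eq ?_)
    rw [sum_const, card_univ, nsmul_eq_mul, mul_one, hcard]
  · rw [he t]
    have e1 : ∑ x : Ix s m, (∑ e : Fin s → Bool, (∏ i, (if e i then (1 : ℝ) else -1)) * al L (T e) x) * dev (cc (ph θ s K b) L x) s K t =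
        ∑ e : Fin s → Bool, (∏ i, (if e i then (1 : ℝ) else -1)) * ∑ x : Ix s m, al L (T e) x * dev (cc (ph θ s K b) L x) s K t := by
      simp only [sum_mul, mul_sum]
      rw [sum_comm]
      exact sum_congr rfl fun e _ => sum_congr rfl fun x _ => by ring
    rw [e1, ← sum_sub_distrib]
    refine (abs_sum_le_sum_abs _ _).trans ?_
    have h1 : ∀ e ∈ (univ : Finset (Fin s → Bool)), |(∏ i, (if e i then (1 : ℝ) else -1)) * dev (low (ph θ s K b) (T e)) s K t -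
        (∏ i, (if e i then (1 : ℝ) else -1)) * ∑ x : Ix s m, al L (T e) x * dev (cc (ph θ s K b) L x) s K t| ≤
        Zf (ph θ s K b) L (adm θ s K b) s K m t := by
      intro e _
      rw [← mul_sub, abs_mul, hsg, one_mul]
      apply low_cut (ph θ s K b) L (adm θ s K b) s K hL
      · intro i k t hk
        rw [hLd]
        exact ph_lt θ s K b i k t hk
      · intro i
        rw [hLd]
        exact adm_lt θ s K b i _ (hT e i)
      · exact hT e
    refine (sum_le_sum h1).trans (le_of_eq ?_)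
    rw [sum_const, card_univ, nsmul_eq_mul, hcard]

/-- the average over a box of parameters -/
noncomputable def av (N : Fin d → ℕ) (u : Fin d → ℤ) (f : (Fin d → ℤ) → ℝ) : ℝ := (∑ n ∈ par N, f (fun i => u i + n i)) / ∏ i, (N i : ℝ)

lemma av_mono {N : Fin d → ℕ} {u : Fin d → ℤ} {f g : (Fin d → ℤ) → ℝ} (h : ∀ t, f t ≤ g t) : av N u f ≤ av N u g := by
  unfold av
  exact div_le_div_of_nonneg_right (sum_le_sum fun n _ => h _) (by positivity)

lemma av_close {N : Fin d → ℕ} {u : Fin d → ℤ} {f g h : (Fin d → ℤ) → ℝ} (hh : ∀ t, |f t - g t| ≤ h t) : |av N u f - av N u g| ≤ av N u h := by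
  unfold av
  rw [← sub_div, ← sum_sub_distrib, abs_div, abs_of_nonneg (show (0 : ℝ) ≤ ∏ i, (N i : ℝ) by positivity)]
  apply div_le_div_of_nonneg_right _ (by positivity)
  exact (abs_sum_le_sum_abs _ _).trans (sum_le_sum fun n _ => hh _)

lemma av_smul {N : Fin d → ℕ} {u : Fin d → ℤ} (c : ℝ) (f : (Fin d → ℤ) → ℝ) : av N u (fun t => c * f t) = c * av N u f := by
  unfold av
  rw [← mul_sum, mul_div_assoc]

/-- the process: the numbers of the windows in the boxes, divided by `√K` -/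
noncomputable def W (θ : ℕ → (Fin d → ℤ) → ℝ) (s K : ℕ) {𝒯 : Type} (T : 𝒯 → ℕ × (Fin s → Set ℝ)) (t : Fin d → ℤ) (p : 𝒯) : ℝ :=
  cnt θ s (T p).1 (T p).2 t / Real.sqrt K

theorem universal (d s : ℕ) (hs : 1 ≤ s) (ε : ℝ) (hε : 0 < ε) : ∃ C : ℕ, ∀ θ : ℕ → (Fin d → ℤ) → ℝ, PerV θ →
    ∀ (K : ℕ) (N N' : Fin d → ℕ) (u u' : Fin d → ℤ), C ≤ K → (∀ i, K ^ C ≤ N i) → (∀ i, K ^ C ≤ N' i) →
    ∀ (𝒯 : Type) (T : 𝒯 → ℕ × (Fin s → Set ℝ)), (∀ p, (T p).1 ≤ K ∧ ∀ i, ((T p).2 i).OrdConnected) →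
    ∀ Ψ : (𝒯 → ℝ) → ℝ, (∀ x, |Ψ x| ≤ 1) → (∀ (x y : 𝒯 → ℝ) (δ : ℝ), (∀ p, |x p - y p| ≤ δ) → |Ψ x - Ψ y| ≤ δ) →
      |av N u (fun t => Ψ (W θ s K T t)) - av N' u' (fun t => Ψ (W θ s K T t))| ≤ ε := by
  classical
  obtain ⟨C₀, c₁, hc₁, hsetup⟩ := setup d s
  obtain ⟨C₁, C₂, τ, hC₁, hC₂, hτ0, hτ1, hlevel⟩ := level d s (s + 1) hs (by omega)
  obtain ⟨ρ, hρ⟩ : ∃ ρ, ρ = Real.sqrt τ := ⟨_, rfl⟩
  have hρ0 : 0 < ρ := by rw [hρ]; exact Real.sqrt_pos.2 hτ0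
  have hρ2 : ρ ^ 2 = τ := by rw [hρ]; exact Real.sq_sqrt hτ0.le
  have hρ1 : ρ < 1 := by
    by_contra h
    have h1 : 1 ≤ ρ ^ 2 := one_le_pow₀ (not_lt.1 h)
    linarith
  have h2s : (0 : ℝ) < 2 ^ s := by positivity
  -- the number of coarse levels
  obtain ⟨E, hE⟩ : ∃ E : ℝ, E = 2 ^ s * (C₁ * (1 / (1 - ρ)) ^ (s + 1)) := ⟨_, rfl⟩
  have h1ρ : 0 < 1 - ρ := by linarith
  have hE0 : 0 ≤ E := by rw [hE]; positivity
  obtain ⟨m, hm⟩ : ∃ m : ℕ, ρ ^ m < ε / (8 * (E + 1)) := exists_pow_lt_of_lt_one (by positivity) hρ1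
  have hm' : E * ρ ^ m ≤ ε / 8 := by
    have h1 : E * ρ ^ m ≤ (E + 1) * (ε / (8 * (E + 1))) := mul_le_mul (by linarith) hm.le (by positivity) (by linarith)
    refine h1.trans (le_of_eq ?_)
    field_simp
  -- the second moments
  obtain ⟨Cm, hCm, hmom⟩ := mom d s 1 hs
  obtain ⟨nn, hnn⟩ : ∃ nn : ℝ, nn = Fintype.card (Ix s m) := ⟨_, rfl⟩
  have hnn0 : 0 ≤ nn := by rw [hnn]; exact Nat.cast_nonneg _
  obtain ⟨B₀, hB₀⟩ : ∃ B₀ : ℝ, B₀ = 4 ^ 1 * ((Nat.doubleFactorial (2 * 1 - 1) : ℝ) * (1 + 2 * s) ^ (2 * 1)) + Cm + 2 ^ (2 * 1) * 2 ^ d := ⟨_, rfl⟩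
  have hB₀0 : 0 ≤ B₀ := by rw [hB₀]; positivity
  obtain ⟨B, hB⟩ : ∃ B : ℝ, B = nn * B₀ := ⟨_, rfl⟩
  have hBnn : 0 ≤ B := by rw [hB]; positivity
  obtain ⟨A, hA⟩ : ∃ A : ℝ, A = 2 ^ s * (4 * B) * 8 / ε + 1 := ⟨_, rfl⟩
  have hA0 : 0 < A := by rw [hA]; positivity
  have hA' : 2 ^ s * (4 * B / A) ≤ ε / 8 := by
    rw [mul_div_assoc', div_le_iff₀ hA0, hA]
    have e : ε / 8 * (2 ^ s * (4 * B) * 8 / ε + 1) = 2 ^ s * (4 * B) + ε / 8 := by field_simp
    rw [e]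
    linarith
  obtain ⟨M, hM⟩ := exists_nat_ge ((2 ^ s * (4 * A * nn) * 8 / ε) ^ 2)
  have hM' : 2 ^ s * (4 * A * nn / Real.sqrt (2 * M + 2)) ≤ ε / 8 := by
    have h1 : 2 ^ s * (4 * A * nn) * 8 / ε ≤ Real.sqrt (2 * M + 2) := by
      apply Real.le_sqrt_of_sq_le
      have : (0 : ℝ) ≤ M := Nat.cast_nonneg M
      linarith
    have h2 : 0 < Real.sqrt (2 * (M : ℝ) + 2) := Real.sqrt_pos.2 (by positivity)
    rw [mul_div_assoc', div_le_iff₀ h2]
    rw [div_le_iff₀ hε] at h1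
    linarith
  obtain ⟨D, hD⟩ : ∃ D : ℝ, D = (4 ^ M) ^ Fintype.card (Ix s m) := ⟨_, rfl⟩
  have hD0 : 0 < D := by rw [hD]; positivity
  obtain ⟨δ, hδ⟩ : ∃ δ : ℝ, δ = ε / (8 * 2 ^ s * D) := ⟨_, rfl⟩
  have hδ0 : 0 < δ := by rw [hδ]; positivity
  have hδ' : 2 ^ s * (D * δ) ≤ ε / 8 := by
    rw [hδ]
    apply le_of_eq
    field_simp
  obtain ⟨Ξ, hΞ⟩ : ∃ Ξ : ℝ, Ξ = M * nn / A + 1 := ⟨_, rfl⟩
  have hΞ0 : 0 < Ξ := by rw [hΞ]; positivity
  obtain ⟨C₃, hosc⟩ := osc d s hs Ξ δ hΞ0.le hδ0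
  obtain ⟨C₄, hC₄1, hsize⟩ := size s 1
  obtain ⟨C₅, hC₅⟩ := exists_nat_ge ((2 ^ s * (c₁ * (C₂ + 1)) * 8 / ε) ^ 8)
  refine ⟨C₀ + C₃ + C₄ + C₅ + 2 ^ m + s + 1, fun θ hθ K N N' u u' hK hN hN' 𝒯 T h𝒯 Ψ hΨ1 hΨ => ?_⟩
  have h2m : 1 ≤ 2 ^ m := Nat.one_le_pow _ _ (by norm_num)
  have hK1' : 1 ≤ K := by omega
  have hK1 : (1 : ℝ) ≤ K := by exact_mod_cast hK1'
  have hσ0 : 0 < Real.sqrt K := Real.sqrt_pos.2 (by linarith)
  obtain ⟨b, σ, hb1, hbK, hσ1, hσ2, hσN, hLprod⟩ := hsetup θ K (by omega)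
  obtain ⟨L, hL⟩ : ∃ L, L = lev s (Nat.log 2 K + 1) b := ⟨_, rfl⟩
  rw [← hL] at hσ1 hLprod
  have hlog1 : K < 2 ^ (Nat.log 2 K + 1) := Nat.lt_pow_succ_log_self (by norm_num) K
  have hLm : ∀ i, m ≤ L i := by
    intro i
    have h1 : 2 ^ m < 2 ^ L i := by
      refine lt_of_le_of_lt (show 2 ^ m ≤ K by omega) ?_
      rw [hL]
      refine Fin.cases ?_ (fun i => ?_) i
      · exact hlog1
      · exact hbK
    exact ((Nat.pow_lt_pow_iff_right (by norm_num)).1 h1).le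
  -- the deviations of the coarse cells
  obtain ⟨φ, hφ⟩ : ∃ φ, φ = ph θ s K b := ⟨_, rfl⟩
  obtain ⟨X, hX⟩ : ∃ X : (Fin d → ℤ) → Ix s m → ℝ, X = fun t x => sd (cc φ L x) s K t := ⟨_, rfl⟩
  have hccper : ∀ (x : Ix s m) k, PerZ (PI (Ico k (k + s))) (cc φ L x k) := by
    intro x k t t' ht
    unfold cc cel
    refine prod_congr rfl fun i _ => ?_
    rw [hφ, ph_per hθ s K b i k t t' ht]
  have hcc01 : ∀ (x : Ix s m) k t, |cc φ L x k t| ≤ 1 := by
    intro x k t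
    unfold cc
    rw [abs_of_nonneg (cel_nonneg _ _ _ _ _)]
    exact cel_le _ _ _ _ _
  have hNpos : ∀ N : Fin d → ℕ, (∀ i, K ^ (C₀ + C₃ + C₄ + C₅ + 2 ^ m + s + 1) ≤ N i) → 0 < ∏ i, (N i : ℝ) := by
    intro N hN
    exact prod_pos fun i _ => by exact_mod_cast lt_of_lt_of_le (Nat.pow_pos (by omega)) (hN i)
  have hsK : s ≤ K := by omega
  -- the eighth root
  obtain ⟨y, hy⟩ : ∃ y : ℝ, y = (K : ℝ) ^ (1 / (8 : ℝ)) := ⟨_, rfl⟩
  have hy0 : 0 < y := by rw [hy]; exact Real.rpow_pos_of_pos (by linarith) _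
  have hy1 : 1 ≤ y := by rw [hy]; exact Real.one_le_rpow hK1 (by norm_num)
  have hy8 : y ^ 8 = K := by
    rw [hy, ← Real.rpow_natCast, ← Real.rpow_mul (by linarith)]
    norm_num
  have hsqrt : Real.sqrt K = y ^ 4 := by
    have e : (K : ℝ) = (y ^ 4) ^ 2 := by rw [← hy8]; ring
    rw [e, Real.sqrt_sq (by positivity)]
  have hsqrt2 : Real.sqrt (Real.sqrt K) = y ^ 2 := by
    have e : y ^ 4 = (y ^ 2) ^ 2 := by ring
    rw [hsqrt, e, Real.sqrt_sq (by positivity)]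
  have hyC : 2 ^ s * (c₁ * (C₂ + 1)) * 8 / ε ≤ y := by
    have h1 : (2 ^ s * (c₁ * (C₂ + 1)) * 8 / ε) ^ 8 ≤ y ^ 8 := by
      rw [hy8]
      refine hC₅.trans ?_
      exact_mod_cast (by omega : C₅ ≤ K)
    exact le_of_pow_le_pow_left₀ (by norm_num) hy0.le h1
  -- the fine levels
  have hfine : ∀ (N : Fin d → ℕ) (u : Fin d → ℤ), (∀ i, K ^ (C₀ + C₃ + C₄ + C₅ + 2 ^ m + s + 1) ≤ N i) →
      av N u (fun t => 2 ^ s / Real.sqrt K * Zf φ L (adm θ s K b) s K m t) ≤ ε / 4 := by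
    intro N u hN
    have hP := hNpos N hN
    have h1 := hlevel φ L (adm θ s K b) K σ N u (by rw [hφ]; exact fun i k t t' h => ph_per hθ s K b i k t t' h) hK1' hσ1 hσ2
      (fun i => hσN (N i) ((Nat.pow_le_pow_right hK1' (by omega)).trans (hN i)))
      (fun i j c hj hT => by
        rw [hL] at hj ⊢
        rw [hφ]
        exact ph_mass hθ s K b hK1' hsK i j c hj hT)
    obtain ⟨FF, hFF⟩ : ∃ FF, FF = (Fintype.piFinset (fun i => range (L i))).filter (fun j => ∃ i, j i + m < L i) := ⟨_, rfl⟩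
    have h2 : ∑ n ∈ par N, Zf φ L (adm θ s K b) s K m (fun i => u i + n i) ≤
        (C₁ * Real.sqrt K * (ρ ^ m * (1 / (1 - ρ)) ^ (s + 1)) + (∏ i, (L i : ℝ)) * (C₂ * Real.sqrt (Real.sqrt K) + 1)) * ∏ i, (N i : ℝ) := by
      unfold Zf
      rw [← hFF, sum_comm]
      have h3 : ∀ j ∈ FF, ∑ n ∈ par N, Real.sqrt (Real.sqrt (Qj φ L (adm θ s K b) s K j (fun i => u i + n i))) ≤
          (C₁ * Real.sqrt K * ∏ i, τ ^ (L i - j i) + (C₂ * Real.sqrt (Real.sqrt K) + 1)) * ∏ i, (N i : ℝ) := by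
        intro j hj
        rw [hFF, mem_filter] at hj
        exact h1 j hj.1
      refine (sum_le_sum h3).trans ?_
      rw [← sum_mul]
      apply mul_le_mul_of_nonneg_right _ hP.le
      rw [sum_add_distrib, sum_const, nsmul_eq_mul, ← mul_sum]
      have h4 : ∑ j ∈ FF, ∏ i, τ ^ (L i - j i) ≤ ρ ^ m * (1 / (1 - ρ)) ^ (s + 1) := by
        have := fine_sum L ρ hρ0 hρ1 m
        rw [← hFF, hρ2] at this
        exact this
      have h5 : (FF.card : ℝ) ≤ ∏ i, (L i : ℝ) := by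
        have h6 : FF.card ≤ (Fintype.piFinset (fun i => range (L i))).card := by rw [hFF]; exact card_le_card (filter_subset _ _)
        rw [Fintype.card_piFinset] at h6
        have h7 : ((∏ i, (range (L i)).card : ℕ) : ℝ) = ∏ i, (L i : ℝ) := by
          push_cast
          exact prod_congr rfl fun i _ => by rw [card_range]
        rw [← h7]
        exact_mod_cast h6
      exact add_le_add (mul_le_mul_of_nonneg_left h4 (by positivity)) (mul_le_mul_of_nonneg_right h5 (by positivity))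
    unfold av
    rw [← mul_sum, div_le_iff₀ hP]
    have h3 := mul_le_mul_of_nonneg_left h2 (show (0 : ℝ) ≤ 2 ^ s / Real.sqrt K by positivity)
    refine h3.trans ?_
    rw [← mul_assoc]
    apply mul_le_mul_of_nonneg_right _ hP.le
    have h4 : 2 ^ s / Real.sqrt K * (C₁ * Real.sqrt K * (ρ ^ m * (1 / (1 - ρ)) ^ (s + 1))) ≤ ε / 8 := by
      refine le_trans (le_of_eq ?_) hm'
      rw [hE]
      field_simp
    have h5 : 2 ^ s / Real.sqrt K * ((∏ i, (L i : ℝ)) * (C₂ * Real.sqrt (Real.sqrt K) + 1)) ≤ ε / 8 := by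
      have h6 : (∏ i, (L i : ℝ)) * (C₂ * Real.sqrt (Real.sqrt K) + 1) ≤ (c₁ * y) * ((C₂ + 1) * y ^ 2) := by
        rw [hsqrt2]
        rw [← hy] at hLprod
        apply mul_le_mul hLprod _ (by positivity) (by positivity)
        have : (1 : ℝ) ≤ y ^ 2 := one_le_pow₀ hy1
        linarith
      have h7 := mul_le_mul_of_nonneg_left h6 (show (0 : ℝ) ≤ 2 ^ s / Real.sqrt K by positivity)
      refine h7.trans ?_
      rw [hsqrt, div_mul_eq_mul_div, div_le_iff₀ (by positivity)]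
      rw [div_le_iff₀ hε] at hyC
      have h8 := mul_le_mul_of_nonneg_right hyC (show (0 : ℝ) ≤ y ^ 3 / 8 by positivity)
      have e1 : 2 ^ s * (c₁ * y * ((C₂ + 1) * y ^ 2)) = 2 ^ s * (c₁ * (C₂ + 1)) * 8 * (y ^ 3 / 8) := by ring
      have e2 : ε / 8 * y ^ 4 = y * ε * (y ^ 3 / 8) := by ring
      rw [e1, e2]
      exact h8
    rw [mul_add]
    linarith
  -- the functional
  have hL' : ∀ i, m ≤ lev s (Nat.log 2 K + 1) b i := by rw [← hL]; exact hLm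
  choose γ hγ1 hγ2 using fun p : 𝒯 => box_cut hθ s K b m hb1 hL' (T p).1 (h𝒯 p).1 (T p).2 (h𝒯 p).2
  rw [← hL, ← hφ] at hγ2
  obtain ⟨G, hG⟩ : ∃ G : (Ix s m → ℝ) → 𝒯 → ℝ, G = fun x p => ∑ i, γ p i * x i + ex θ s (T p).1 (T p).2 / Real.sqrt K := ⟨_, rfl⟩
  have hsumγ : ∀ (p : 𝒯) (x : Ix s m → ℝ), |∑ i, γ p i * x i| ≤ 2 ^ s * ∑ i, |x i| := by
    intro p x
    rw [mul_sum]
    refine (abs_sum_le_sum_abs _ _).trans (sum_le_sum fun i _ => ?_)
    rw [abs_mul]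
    exact mul_le_mul_of_nonneg_right (hγ1 p i) (abs_nonneg _)
  have hGlip : ∀ x y p, |G x p - G y p| ≤ 2 ^ s * ∑ i, |x i - y i| := by
    intro x y p
    rw [hG]
    have e : (∑ i, γ p i * x i + ex θ s (T p).1 (T p).2 / Real.sqrt K) - (∑ i, γ p i * y i + ex θ s (T p).1 (T p).2 / Real.sqrt K) =
        ∑ i, γ p i * (x i - y i) := by
      rw [sum_congr rfl fun i _ => mul_sub (γ p i) (x i) (y i), sum_sub_distrib]
      ring
    show |(∑ i, γ p i * x i + ex θ s (T p).1 (T p).2 / Real.sqrt K) - (∑ i, γ p i * y i + ex θ s (T p).1 (T p).2 / Real.sqrt K)| ≤ _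
    rw [e]
    exact hsumγ p (fun i => x i - y i)
  have hPhG : ∀ t p, |W θ s K T t p - G (X t) p| ≤ 2 ^ s / Real.sqrt K * Zf φ L (adm θ s K b) s K m t := by
    intro t p
    have h1 := hγ2 p t
    have e2 : W θ s K T t p - G (X t) p =
        (cnt θ s (T p).1 (T p).2 t - ex θ s (T p).1 (T p).2 - ∑ x, γ p x * dev (cc φ L x) s K t) / Real.sqrt K := by
      rw [hG, hX]
      show cnt θ s (T p).1 (T p).2 t / Real.sqrt K -
        (∑ i, γ p i * (dev (cc φ L i) s K t / Real.sqrt K) + ex θ s (T p).1 (T p).2 / Real.sqrt K) = _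
      have e3 : ∑ i, γ p i * (dev (cc φ L i) s K t / Real.sqrt K) = (∑ x, γ p x * dev (cc φ L x) s K t) / Real.sqrt K := by
        rw [sum_div]
        exact sum_congr rfl fun i _ => by ring
      rw [e3]
      ring
    rw [e2, abs_div, abs_of_pos hσ0]
    refine (div_le_div_of_nonneg_right h1 hσ0.le).trans (le_of_eq ?_)
    ring
  have hstep : ∀ (N : Fin d → ℕ) (u : Fin d → ℤ), (∀ i, K ^ (C₀ + C₃ + C₄ + C₅ + 2 ^ m + s + 1) ≤ N i) →
      |av N u (fun t => Ψ (W θ s K T t)) - av N u (fun t => Ψ (G (X t)))| ≤ ε / 4 := by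
    intro N u hN
    refine le_trans ?_ (hfine N u hN)
    exact av_close fun t => hΨ _ _ _ (hPhG t)
  -- the coarse functional
  have h2s1 : (1 : ℝ) ≤ 2 ^ s := one_le_pow₀ (by norm_num)
  obtain ⟨F, hF⟩ : ∃ F : (Ix s m → ℝ) → ℝ, F = fun x => (1 / 2 ^ s) * Ψ (G x) := ⟨_, rfl⟩
  have hF1 : ∀ x, |F x| ≤ 1 := by
    intro x
    rw [hF]
    show |(1 / 2 ^ s) * Ψ (G x)| ≤ 1
    rw [abs_mul, abs_of_pos (by positivity)]
    have h1 := hΨ1 (G x)
    have h2 : (1 : ℝ) / 2 ^ s ≤ 1 := by rw [div_le_one h2s]; exact h2s1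
    calc 1 / 2 ^ s * |Ψ (G x)| ≤ 1 * 1 := mul_le_mul h2 h1 (abs_nonneg _) (by norm_num)
      _ = 1 := one_mul 1
  have hFlip : ∀ x y, |F x - F y| ≤ ∑ i, |x i - y i| := by
    intro x y
    rw [hF]
    show |(1 / 2 ^ s) * Ψ (G x) - (1 / 2 ^ s) * Ψ (G y)| ≤ _
    rw [← mul_sub, abs_mul, abs_of_pos (by positivity)]
    have h1 := hΨ (G x) (G y) _ (hGlip x y)
    calc 1 / 2 ^ s * |Ψ (G x) - Ψ (G y)| ≤ 1 / 2 ^ s * (2 ^ s * ∑ i, |x i - y i|) := mul_le_mul_of_nonneg_left h1 (by positivity)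
      _ = _ := by field_simp
  have hsq : ∀ (N : Fin d → ℕ) (u : Fin d → ℤ), (∀ i, K ^ (C₀ + C₃ + C₄ + C₅ + 2 ^ m + s + 1) ≤ N i) →
      ∑ n ∈ par N, ∑ i, X (fun i => u i + n i) i ^ 2 ≤ B * ((par N).card : ℝ) := by
    intro N u hN
    have hP := hNpos N hN
    have hcard : ((par N).card : ℝ) = ∏ i, (N i : ℝ) := by
      rw [card_par]
      push_cast
      rfl
    rw [hcard, sum_comm]
    have h1 : ∀ x ∈ (univ : Finset (Ix s m)), ∑ n ∈ par N, X (fun i => u i + n i) x ^ 2 ≤ B₀ * ∏ i, (N i : ℝ) := by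
      intro x _
      obtain ⟨h2, h3⟩ := hmom (cc φ L x) (hccper x) (hcc01 x) K hK1'
      have h4 := h3 N u (fun i => by
        refine (hsize K (by omega)).trans ?_
        exact_mod_cast (Nat.pow_le_pow_right hK1' (by omega)).trans (hN i)) 2 (by norm_num)
      have h5 := (abs_le.1 h4).2
      rw [hX]
      show ∑ n ∈ par N, sd (cc φ L x) s K (fun i => u i + n i) ^ 2 ≤ _
      have h6 : meanZ (PI (range (K + s))) (fun t => sd (cc φ L x) s K t ^ 2) ≤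
          4 ^ 1 * ((Nat.doubleFactorial (2 * 1 - 1) : ℝ) * (1 + 2 * s) ^ (2 * 1)) + Cm := by
        refine h2.trans ?_
        have h7 : Cm / Real.sqrt K ≤ Cm := div_le_self hCm (Real.one_le_sqrt.2 hK1)
        linarith
      have h7 : (2 : ℝ) ^ 2 * 2 ^ d / Real.sqrt K ≤ 2 ^ (2 * 1) * 2 ^ d := div_le_self (by positivity) (Real.one_le_sqrt.2 hK1)
      have h8 := mul_le_mul_of_nonneg_left h6 hP.le
      have h9 := mul_le_mul_of_nonneg_right h7 hP.le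
      rw [hB₀]
      have h10 : (4 ^ 1 * ((Nat.doubleFactorial (2 * 1 - 1) : ℝ) * (1 + 2 * s) ^ (2 * 1)) + Cm + 2 ^ (2 * 1) * 2 ^ d) * ∏ i, (N i : ℝ) =
          (∏ i, (N i : ℝ)) * (4 ^ 1 * ((Nat.doubleFactorial (2 * 1 - 1) : ℝ) * (1 + 2 * s) ^ (2 * 1)) + Cm) + (2 ^ (2 * 1) * 2 ^ d) * ∏ i, (N i : ℝ) := by ring
      rw [h10]
      have h11 := sub_le_iff_le_add'.1 h5
      exact h11.trans (add_le_add h8 h9)
    refine (sum_le_sum h1).trans (le_of_eq ?_)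
    rw [sum_const, card_univ, nsmul_eq_mul, hB, hnn]
    ring
  have hexp : ∀ k : Ix s m → ℤ, (∀ i, |k i| ≤ M) →
      ‖La (par N) (par N') (fun n => X (fun i => u i + n i)) (fun n => X (fun i => u' i + n i))
        (fun x => Complex.exp ((∑ i, (k i : ℝ) * (x i / A) : ℝ) * Complex.I))‖ ≤ δ := by
    intro k hk
    obtain ⟨g, hg⟩ : ∃ g : ℕ → (Fin d → ℤ) → ℝ, g = fun l t => ∑ x, ((k x : ℝ) / A / Ξ) * cc φ L x l t := ⟨_, rfl⟩
    have hgper : ∀ l, PerZ (PI (Ico l (l + s))) (g l) := by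
      intro l t t' ht
      rw [hg]
      exact sum_congr rfl fun x _ => by rw [hccper x l t t' ht]
    have hgb : ∀ l t, |g l t| ≤ 1 := by
      intro l t
      rw [hg]
      show |∑ x, ((k x : ℝ) / A / Ξ) * cc φ L x l t| ≤ 1
      refine (abs_sum_le_sum_abs _ _).trans ?_
      have h1 : ∀ x ∈ (univ : Finset (Ix s m)), |((k x : ℝ) / A / Ξ) * cc φ L x l t| ≤ M / A / Ξ := by
        intro x _
        rw [abs_mul, abs_div, abs_div, abs_of_pos hA0, abs_of_pos hΞ0]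
        have h2 : |(k x : ℝ)| ≤ M := by exact_mod_cast hk x
        calc |(k x : ℝ)| / A / Ξ * |cc φ L x l t| ≤ M / A / Ξ * 1 := by
              apply mul_le_mul _ (hcc01 x l t) (abs_nonneg _) (by positivity)
              exact div_le_div_of_nonneg_right (div_le_div_of_nonneg_right h2 hA0.le) hΞ0.le
          _ = _ := mul_one _
      refine (sum_le_sum h1).trans ?_
      rw [sum_const, card_univ, nsmul_eq_mul, ← hnn]
      have e : nn * (M / A / Ξ) = (M * nn / A) / Ξ := by ring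
      rw [e, div_le_one hΞ0, hΞ]
      linarith
    have h1 := hosc g hgper hgb K N N' u u' (by omega) (fun i => (Nat.pow_le_pow_right hK1' (by omega)).trans (hN i))
      (fun i => (Nat.pow_le_pow_right hK1' (by omega)).trans (hN' i)) Ξ (le_of_eq (abs_of_pos hΞ0))
    have h2 : ∀ t, ∑ i, (k i : ℝ) * (X t i / A) = Ξ * sd g s K t := by
      intro t
      have h3 := dev_sum (univ : Finset (Ix s m)) (fun x => (k x : ℝ) / A / Ξ) (fun x => cc φ L x) g s K (fun l _ t => by rw [hg]) t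
      unfold sd
      rw [h3, hX]
      show ∑ i, (k i : ℝ) * ((dev (cc φ L i) s K t / Real.sqrt K) / A) = _
      rw [sum_div, mul_sum]
      refine sum_congr rfl fun i _ => ?_
      field_simp
    unfold La
    simp only [h2]
    exact h1
  have hcardN : ∀ N : Fin d → ℕ, ((par N).card : ℝ) = ∏ i, (N i : ℝ) := by
    intro N
    rw [card_par]
    push_cast
    rfl
  have hne : ∀ N : Fin d → ℕ, (∀ i, K ^ (C₀ + C₃ + C₄ + C₅ + 2 ^ m + s + 1) ≤ N i) → (par N).Nonempty := by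
    intro N hN
    rw [← card_pos]
    have h1 := hNpos N hN
    rw [← hcardN] at h1
    exact_mod_cast h1
  have htwo := two_laws (par N) (par N') (hne N hN) (hne N' hN') (fun n => X (fun i => u i + n i)) (fun n => X (fun i => u' i + n i)) M A B δ hA0 F
    hF1 hFlip (hsq N u hN) (hsq N' u' hN') hexp
  rw [← hnn, ← hD] at htwo
  rw [hcardN, hcardN] at htwo
  have e1 : ∀ (N : Fin d → ℕ) (u : Fin d → ℤ), av N u (fun t => Ψ (G (X t))) = 2 ^ s * ((∑ n ∈ par N, F (X (fun i => u i + n i))) / ∏ i, (N i : ℝ)) := by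
    intro N u
    unfold av
    rw [← mul_div_assoc, mul_sum]
    congr 1
    refine sum_congr rfl fun n _ => ?_
    rw [hF]
    show Ψ (G (X fun i => u i + n i)) = 2 ^ s * (1 / 2 ^ s * Ψ (G (X fun i => u i + n i)))
    field_simp
  have hmid : |av N u (fun t => Ψ (G (X t))) - av N' u' (fun t => Ψ (G (X t)))| ≤ 3 * (ε / 8) := by
    rw [e1, e1, ← mul_sub, abs_mul, abs_of_pos h2s]
    have h1 := mul_le_mul_of_nonneg_left htwo h2s.le
    refine h1.trans ?_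
    rw [mul_add, mul_add]
    linarith
  have ha := hstep N u hN
  have hb := hstep N' u' hN'
  rw [abs_sub_comm] at hb
  have h1 := abs_sub_le (av N u (fun t => Ψ (W θ s K T t))) (av N u (fun t => Ψ (G (X t)))) (av N' u' (fun t => Ψ (W θ s K T t)))
  have h2 := abs_sub_le (av N u (fun t => Ψ (G (X t)))) (av N' u' (fun t => Ψ (G (X t)))) (av N' u' (fun t => Ψ (W θ s K T t)))
  linarith

end Pool.Agent.K4H4.UL
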